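import Pool.Agent.Strip051.LC.Half.Rhomb
import Pool.Agent.Strip051.LC.Line.UnitRow
import Pool.Agent.Strip051.LC.Exact.Fixed

/-! # The field `rhomb` of the certificates -/

namespace Pool.Agent.Strip051.LC.Half

open Real Pool.Agent.StripNear Pool.Agent.Strip051.LC.Line

variable {R : ℝ → ℝ → ℝ} {c s κ θ : ℝ}

/-- The unit circle of a kernel with the closed form `A1u`. -/
theorem unitKer_of (hodd : ∀ X T, R (-X) T = -R X T)
    (h : ∀ X T, 0 < X → 0 ≤ T → X ^ 2 + T ^ 2 = 1 → R X T = c * A1u T) : UnitKer R c := by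
  have hp := h0_pos
  have w : √3 = 2 * h0 := by unfold h0; ring
  have hX : ∀ X T : ℝ, 0 < X → X ^ 2 + T ^ 2 = 1 → √(1 - T ^ 2) = X := by
    intro X T h1 h2
    rw [show 1 - T ^ 2 = X ^ 2 by linarith]
    exact Real.sqrt_sq h1.le
  refine ⟨hodd, ?_, ?_, ?_⟩
  · intro X T h1 h2 h3 h4
    rw [h X T h1 h2 h3]
    unfold A1u
    rw [if_pos h4, hX X T h1 h3, w]
  · intro X T h1 h3 h4 h5
    rw [h X T h1 (by linarith) h3]
    unfold A1u
    rw [if_neg h4.not_gt, if_pos h5, hX X T h1 h3, w]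
  · intro X T h1 h3 h4
    rw [h X T h1 (by linarith) h3]
    rcases h4.eq_or_lt with h5 | h5
    · have e1 : X = 1 / 2 := by
        have := h0_sq
        rw [← h5] at h3
        nlinarith
      unfold A1u
      rw [if_neg (by rw [← h5]; linarith), if_pos h5.ge, hX X T h1 h3, w, ← h5, e1]
      have := h0_sq
      have e2 : 2 * h0 * h0 = 3 / 2 := by nlinarith
      rw [e2]
      norm_num
    · unfold A1u
      rw [if_neg (by linarith), if_neg h5.not_ge, hX X T h1 h3]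

/-- The line form. -/
theorem rhomb_line (hR : UnitKer R 1) (hθ0 : 0 < θ) (hθ1 : θ ≤ 1) (hs0 : 0 ≤ s) (hs1 : s < h0) :
    Rhomb (QL θ R s) := by
  have h3 := L0_pos hs1
  have h4 : h0 ≤ L0 := by
    have := h0_lt
    have e : L0 = 1 / 2 + h0 / 2 := by unfold L0 h0; ring
    rw [e]
    linarith
  unfold QL
  refine rhomb hR hs0 hs1 zero_le_one (div_pos hθ0 h3).le ?_
  unfold kap
  rw [one_mul, div_mul_eq_mul_div, div_le_one h3]
  have : 0 ≤ h0 - s / 2 := by linarith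
  nlinarith

/-- The exact weight. -/
theorem rhomb_exact (hR : UnitKer R c) (hs0 : 0 ≤ s) (hs1 : s < h0) (hc : 0 ≤ c) (hκ : 0 ≤ κ)
    (hcκ : c * κ * (h0 - s / 2) ≤ 1) : Rhomb (Qc κ s R) := by
  have key := rhomb hR hs0 hs1 hc hκ hcκ
  intro y X1 Y1 X2 Y2 k1 k2 k3 k4
  have := key (y + s / 2) X1 Y1 X2 Y2 k1 k2 k3 k4
  unfold Qc
  rw [show y + s / 2 + Y1 + Y2 = y + Y1 + Y2 + s / 2 by ring,
    show y + s / 2 + Y1 = y + Y1 + s / 2 by ring,
    show y + s / 2 + Y2 = y + Y2 + s / 2 by ring] at this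
  exact this

/-- The amplitude of the exact weight: the chord. -/
theorem ee_chord (hs0 : 0 ≤ s) (hs1 : s ≤ h0) :
    ee s * (h0 * (2 * h0 - s)) ≤ s * (h0 - s) := by
  obtain ⟨z, z0, z1, e1, e2⟩ := half_angle hs0 hs1
  have w : √3 = 2 * h0 := by unfold h0; ring
  have hs := h0_sq
  have hp := h0_pos
  have hz : 0 < 3 + z ^ 2 := by positivity
  have e3 : ee s = 2 * z * (1 - z) / (3 + z ^ 2) := by
    unfold ee
    rw [e2]
    nth_rewrite 1 [e1]
    rw [w]
    field_simp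
    ring
  have e4 : s = h0 * (4 * z / (3 + z ^ 2)) := by
    rw [e1, w]; ring
  rw [e3, e4]
  have e5 : h0 * (4 * z / (3 + z ^ 2)) * (h0 - h0 * (4 * z / (3 + z ^ 2))) -
      2 * z * (1 - z) / (3 + z ^ 2) * (h0 * (2 * h0 - h0 * (4 * z / (3 + z ^ 2)))) =
      h0 ^ 2 * (4 * z * (1 - z) * (z * (1 - z)) / (3 + z ^ 2) ^ 2) := by
    field_simp
    ring
  have h1 : 0 ≤ 1 - z := by linarith
  have e6 : 0 ≤ h0 ^ 2 * (4 * z * (1 - z) * (z * (1 - z)) / (3 + z ^ 2) ^ 2) := by positivity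
  linarith

/-- The exact weight with the amplitude `we s`. -/
theorem rhomb_we (hR : UnitKer R c) (hs0 : 0 < s) (hs1 : s < h0) (hc : 0 ≤ c) (hκ : 0 ≤ κ)
    (hcκ : c * κ * (s * (h0 - s)) ≤ 2 * h0 * we s) : Rhomb (Qc κ s R) := by
  have hp := h0_pos
  have hss : 0 < s * (h0 - s) := mul_pos hs0 (by linarith)
  refine rhomb_exact hR hs0.le hs1 hc hκ ?_
  have e : we s = ee s := by unfold we ee Pool.Agent.StripSquare.g; ring
  have k := ee_chord hs0.le hs1.le
  rw [e] at hcκ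
  have h1 : 0 < h0 - s / 2 := by linarith
  have h2 := mul_le_mul_of_nonneg_right hcκ h1.le
  have h3 : s * (h0 - s) * (c * κ * (h0 - s / 2)) ≤ s * (h0 - s) * 1 := by
    calc _ = c * κ * (s * (h0 - s)) * (h0 - s / 2) := by ring
      _ ≤ _ := h2
      _ = ee s * (h0 * (2 * h0 - s)) := by ring
      _ ≤ _ := by rw [mul_one]; exact k
  exact le_of_mul_le_mul_left h3 hss

end Pool.Agent.Strip051.LC.Half
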