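import Mathlib

/-! # Second differences of the primitive of a two-slope density

`P` is the primitive of the indicator of a union of cells, `P (x + h) = P x + s`.  `sd` is the
second difference of the primitive of `P` over a `p` by `q` rectangle, `dd` the same after the
subtraction of the mean.  The bounds do not depend on the position of the cells. -/

namespace Pool.Agent.Strip051.LC.Half

open MeasureTheory intervalIntegral

/-- The primitive of a union of cells of length `s`, one in every period `h`. -/
structure Cell (h s : ℝ) (P : ℝ → ℝ) : Prop where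
  mono : Monotone P
  lip : ∀ x y, x ≤ y → P y - P x ≤ y - x
  per : ∀ x, P (x + h) = P x + s

/-- The primitive of `P`. -/
noncomputable def prim (P : ℝ → ℝ) (x : ℝ) : ℝ := ∫ t in (0 : ℝ)..x, P t

/-- The second difference of the primitive of `P`. -/
noncomputable def sd (P : ℝ → ℝ) (y p q : ℝ) : ℝ :=
  prim P (y + p + q) - prim P (y + p) - prim P (y + q) + prim P y

/-- The second difference without the mean. -/
noncomputable def dd (h s : ℝ) (P : ℝ → ℝ) (y p q : ℝ) : ℝ := sd P y p q - s / h * (p * q)

variable {h s : ℝ} {P : ℝ → ℝ}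

theorem Cell.int (hP : Cell h s P) (a b : ℝ) : IntervalIntegrable P volume a b :=
  hP.mono.intervalIntegrable

theorem Cell.prim_sub (hP : Cell h s P) (a b : ℝ) : prim P b - prim P a = ∫ t in a..b, P t := by
  unfold prim
  rw [intervalIntegral.integral_interval_sub_left (hP.int _ _) (hP.int _ _)]

/-- the second difference as an integral of first differences -/
theorem Cell.sd_eq (hP : Cell h s P) (y p q : ℝ) :
    sd P y p q = ∫ t in y..(y + p), (P (t + q) - P t) := by
  have hint : ∀ a b c : ℝ, IntervalIntegrable (fun t => P (t + c)) volume a b := fun a b c =>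
    Monotone.intervalIntegrable fun x z hxz => hP.mono (by linarith)
  rw [intervalIntegral.integral_sub (hint _ _ _) (hP.int _ _),
    intervalIntegral.integral_comp_add_right (fun t => P t) q, ← hP.prim_sub, ← hP.prim_sub]
  unfold sd
  ring

theorem Cell.sd_comm (y p q : ℝ) : sd P y p q = sd P y q p := by
  unfold sd
  rw [show y + p + q = y + q + p by ring]
  ring

theorem Cell.dd_comm (y p q : ℝ) : dd h s P y p q = dd h s P y q p := by
  unfold dd
  rw [Cell.sd_comm, mul_comm p q]

/-- bounds for the second difference from bounds for the first difference -/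
theorem Cell.sd_le (hP : Cell h s P) {y p q c : ℝ} (hp : 0 ≤ p)
    (hc : ∀ t, P (t + q) - P t ≤ c) : sd P y p q ≤ p * c := by
  have hint : IntervalIntegrable (fun t => P (t + q) - P t) volume y (y + p) :=
    (Monotone.intervalIntegrable fun x z hxz => hP.mono (by linarith)).sub (hP.int _ _)
  rw [hP.sd_eq]
  have h1 := intervalIntegral.integral_mono_on (by linarith : y ≤ y + p) hint
    (intervalIntegrable_const (c := c)) fun t _ => hc t
  rw [intervalIntegral.integral_const, smul_eq_mul] at h1
  linarith

theorem Cell.le_sd (hP : Cell h s P) {y p q c : ℝ} (hp : 0 ≤ p)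
    (hc : ∀ t, c ≤ P (t + q) - P t) : p * c ≤ sd P y p q := by
  have hint : IntervalIntegrable (fun t => P (t + q) - P t) volume y (y + p) :=
    (Monotone.intervalIntegrable fun x z hxz => hP.mono (by linarith)).sub (hP.int _ _)
  rw [hP.sd_eq]
  have h1 := intervalIntegral.integral_mono_on (by linarith : y ≤ y + p)
    (intervalIntegrable_const (c := c)) hint fun t _ => hc t
  rw [intervalIntegral.integral_const, smul_eq_mul] at h1
  linarith

theorem Cell.B1 (hP : Cell h s P) (y : ℝ) {p q : ℝ} (hp : 0 ≤ p) (hq : 0 ≤ q) :
    -dd h s P y p q ≤ s / h * (p * q) := by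
  have h1 := hP.le_sd (y := y) (q := q) (c := 0) hp fun t => by
    have := hP.mono (by linarith : t ≤ t + q)
    linarith
  unfold dd
  linarith

theorem Cell.B2 (hP : Cell h s P) (y : ℝ) {p q : ℝ} (hp : 0 ≤ p) (hq : 0 ≤ q) :
    dd h s P y p q ≤ (1 - s / h) * (p * q) := by
  have h1 := hP.sd_le (y := y) (q := q) (c := q) hp fun t => by
    have := hP.lip t (t + q) (by linarith)
    linarith
  unfold dd
  linarith

theorem Cell.B3 (hh : 0 < h) (hP : Cell h s P) (y : ℝ) {p q : ℝ} (hp : 0 ≤ p) (hqh : q ≤ h) :
    dd h s P y p q ≤ p * s * (1 - q / h) := by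
  have h1 := hP.sd_le (y := y) (q := q) (c := s) hp fun t => by
    have := hP.mono (by linarith : t + q ≤ t + h)
    rw [hP.per] at this
    linarith
  have e : p * s * (1 - q / h) = p * s - s / h * (p * q) := by
    field_simp
  unfold dd
  rw [e]
  linarith

theorem Cell.B4 (hh : 0 < h) (hP : Cell h s P) (y : ℝ) {p q : ℝ} (hp : 0 ≤ p) (hqh : q ≤ h) :
    -dd h s P y p q ≤ p * (h - s) * (1 - q / h) := by
  have h1 := hP.le_sd (y := y) (q := q) (c := s - (h - q)) hp fun t => by
    have := hP.lip (t + q) (t + h) (by linarith)
    rw [hP.per] at this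
    linarith
  have e : p * (h - s) * (1 - q / h) = s / h * (p * q) - p * (s - (h - q)) := by
    field_simp
    ring
  unfold dd
  rw [e]
  linarith

theorem Cell.dd_split (y p q l : ℝ) :
    dd h s P y p q = dd h s P y l (p + q - l) + dd h s P (y + l) (p - l) (q - l) := by
  unfold dd sd
  rw [show y + l + (p + q - l) = y + p + q by ring, show y + (p + q - l) = y + p + q - l by ring,
    show y + l + (p - l) + (q - l) = y + p + q - l by ring, show y + l + (p - l) = y + p by ring,
    show y + l + (q - l) = y + q by ring]
  ring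

/-- the middle range -/
theorem Cell.B5 (hh : 0 < h) (hP : Cell h s P) (y : ℝ) {p q : ℝ}
    (h1 : h - s ≤ p + q) (h2 : p + q ≤ h + s) (h3 : p - q ≤ h - s) (h4 : q - p ≤ h - s) :
    -dd h s P y p q ≤ s / h * (p * q) - (p + q - h + s) ^ 2 / 4 := by
  set l : ℝ := (p + q - h + s) / 2 with hl
  have a := hP.B4 hh y (p := l) (q := p + q - l) (by rw [hl]; linarith) (by rw [hl]; linarith)
  have b := hP.B1 (y + l) (p := p - l) (q := q - l) (by rw [hl]; linarith) (by rw [hl]; linarith)
  rw [Cell.dd_split y p q l]
  have e : l * (h - s) * (1 - (p + q - l) / h) + s / h * ((p - l) * (q - l)) =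
      s / h * (p * q) - (p + q - h + s) ^ 2 / 4 := by
    rw [hl]
    field_simp
    ring
  rw [← e]
  linarith

/-- periodicity -/
theorem Cell.prim_per (hP : Cell h s P) (a b : ℝ) :
    prim P (b + h) - prim P (a + h) = prim P b - prim P a + s * (b - a) := by
  rw [hP.prim_sub, hP.prim_sub, ← intervalIntegral.integral_comp_add_right (fun t => P t) h]
  have e : (fun t => P (t + h)) = fun t => P t + s := funext hP.per
  rw [e, intervalIntegral.integral_add (hP.int _ _) intervalIntegrable_const,
    intervalIntegral.integral_const, smul_eq_mul]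
  ring

theorem Cell.dd_per (hh : h ≠ 0) (hP : Cell h s P) (y p q : ℝ) :
    dd h s P y p (q + h) = dd h s P y p q := by
  have h1 := hP.prim_per (y + q) (y + p + q)
  have e : s / h * (p * (q + h)) = s / h * (p * q) + s * p := by
    field_simp
  unfold dd sd
  rw [e, show y + p + (q + h) = y + p + q + h by ring, show y + (q + h) = y + q + h by ring]
  linarith

theorem Cell.dd_neg (y p q : ℝ) : dd h s P y p (-q) = -dd h s P (y - q) p q := by
  unfold dd sd
  rw [show y + p + -q = y - q + p by ring, show y + -q = y - q by ring,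
    show y - q + p + q = y + p by ring, show y - q + q = y by ring]
  ring

/-- the complement of one side -/
theorem Cell.dd_compl (hh : h ≠ 0) (hP : Cell h s P) (y p q : ℝ) :
    -dd h s P y p q = dd h s P (y - (h - q)) p (h - q) := by
  have h1 := hP.dd_per hh y p (q - h)
  rw [sub_add_cancel] at h1
  rw [h1, show q - h = -(h - q) by ring, Cell.dd_neg, neg_neg]

/-- the complement of both sides -/
theorem Cell.dd_compl2 (hh : h ≠ 0) (hP : Cell h s P) (y p q : ℝ) :
    dd h s P y p q = dd h s P (y - (h - q) - (h - p)) (h - p) (h - q) := by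
  have h1 := hP.dd_compl hh y p q
  have h2 := hP.dd_compl hh (y - (h - q)) (h - q) p
  rw [Cell.dd_comm] at h2
  rw [Cell.dd_comm (p := h - p)]
  linarith

end Pool.Agent.Strip051.LC.Half
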