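import Pool.Agent.Strip051.LC.Half.Dd

/-! # Elimination of the width and of the position of the cells

Four bounds `k * dd ≤ w / h * L s`, where `L s = L0 - L1 * s` is an affine function, from one
inequality which does not contain `s`. -/

namespace Pool.Agent.Strip051.LC.Half

variable {h s L0 L1 k w p q : ℝ} {P : ℝ → ℝ}

theorem aff_left (h0 : 0 ≤ L0) (hsq : s ≤ q) : s * (L0 - L1 * q) ≤ q * (L0 - L1 * s) := by
  nlinarith [mul_nonneg (sub_nonneg.2 hsq) h0]

theorem aff_right (hh : 0 ≤ L0 - L1 * h) (hqs : q ≤ s) :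
    (h - s) * (L0 - L1 * q) ≤ (h - q) * (L0 - L1 * s) := by
  nlinarith [mul_nonneg (sub_nonneg.2 hqs) hh]

theorem aff_pos (hL0 : 0 ≤ L0) (hLh : 0 ≤ L0 - L1 * h) (hh : 0 < h) (hs0 : 0 ≤ s) (hsh : s ≤ h) :
    0 ≤ L0 - L1 * s := by
  have : 0 ≤ (h - s) * L0 + s * (L0 - L1 * h) :=
    add_nonneg (mul_nonneg (by linarith) hL0) (mul_nonneg hs0 hLh)
  have e : (h - s) * L0 + s * (L0 - L1 * h) = h * (L0 - L1 * s) := by ring
  rw [e] at this
  exact nonneg_of_mul_nonneg_right this hh

/-- Scaling argument: `a ≤ w L(q)` implies `a t ≤ w L(s)` for `t = s / q` if `s ≤ q`. -/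
theorem scale_left {a : ℝ} (h0 : 0 ≤ L0) (hw : 0 ≤ w) (hs0 : 0 ≤ s) (hsq : s ≤ q)
    (hq : 0 < q) (H : a * q ≤ w * (L0 - L1 * q)) : a * s ≤ w * (L0 - L1 * s) := by
  have h1 := mul_le_mul_of_nonneg_left (aff_left (L1 := L1) h0 hsq) hw
  have h2 := mul_le_mul_of_nonneg_left H hs0
  have h3 : q * (a * s) ≤ q * (w * (L0 - L1 * s)) := by linarith
  exact le_of_mul_le_mul_left h3 hq

theorem scale_right {a : ℝ} (hLh : 0 ≤ L0 - L1 * h) (hw : 0 ≤ w) (hsh : s ≤ h) (hqs : q ≤ s)
    (hq : q < h) (H : a * (h - q) ≤ w * (L0 - L1 * q)) : a * (h - s) ≤ w * (L0 - L1 * s) := by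
  have h1 := mul_le_mul_of_nonneg_left (aff_right hLh hqs) hw
  have h2 := mul_le_mul_of_nonneg_left H (sub_nonneg.2 hsh)
  have h3 : (h - q) * (a * (h - s)) ≤ (h - q) * (w * (L0 - L1 * s)) := by linarith
  exact le_of_mul_le_mul_left h3 (sub_pos.2 hq)

/-- across the direction 60 -/
theorem Cell.W0 (hh : 0 < h) (hP : Cell h s P) (hs0 : 0 ≤ s) (hsh : s ≤ h) (hL0 : 0 ≤ L0)
    (hLh : 0 ≤ L0 - L1 * h) (hk : 0 ≤ k) (hw : 0 ≤ w) (hp : 0 ≤ p) (hq : 0 ≤ q) (hqh : q ≤ h)
    (H : k * p * q * (h - q) ≤ w * (L0 - L1 * q)) (y : ℝ) :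
    k * dd h s P y p q ≤ w / h * (L0 - L1 * s) := by
  have hL := aff_pos hL0 hLh hh hs0 hsh
  have key : k * dd h s P y p q * h ≤ w * (L0 - L1 * s) := by
    rcases le_total s q with hsq | hsq
    · have h1 := mul_le_mul_of_nonneg_left (hP.B3 hh y hp hqh) hk
      have h2 : k * (p * s * (1 - q / h)) * h = k * p * (h - q) * s := by
        field_simp
      have h3 := mul_le_mul_of_nonneg_right h1 hh.le
      rw [h2] at h3
      rcases hq.eq_or_lt with h4 | h4
      · have h5 : s = 0 := le_antisymm (h4 ▸ hsq) hs0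
        rw [h5] at h3
        rw [h5] at hL
        have := mul_nonneg hw hL
        rw [h5]
        rw [h5] at hP
        linarith
      refine h3.trans (scale_left hL0 hw hs0 hsq h4 ?_)
      linarith
    · have h1 := mul_le_mul_of_nonneg_left (hP.B2 y hp hq) hk
      have h2 : k * ((1 - s / h) * (p * q)) * h = k * p * q * (h - s) := by
        field_simp
      have h3 := mul_le_mul_of_nonneg_right h1 hh.le
      rw [h2] at h3
      rcases hqh.eq_or_lt with h4 | h4
      · have h5 : s = h := le_antisymm hsh (h4 ▸ hsq)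
        have := mul_nonneg hw hL
        have h6 : h - s = 0 := by rw [h5, sub_self]
        rw [h6, mul_zero] at h3
        linarith
      exact h3.trans (scale_right hLh hw hsh hsq h4 H)
  rw [div_mul_eq_mul_div, le_div_iff₀ hh]
  exact key

/-- both directions below 60 -/
theorem Cell.N0 (hh : 0 < h) (hP : Cell h s P) (hsh : s ≤ h)
    (hL : h - s ≤ L0 - L1 * s) (hk : 0 ≤ k) (hw : 0 ≤ w) (hp : 0 ≤ p) (hqh : q ≤ h)
    (H : k * p * (h - q) ≤ w) (y : ℝ) :
    k * -dd h s P y p q ≤ w / h * (L0 - L1 * s) := by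
  have key : k * -dd h s P y p q * h ≤ w * (L0 - L1 * s) := by
    rw [hP.dd_compl hh.ne']
    have h1 := mul_le_mul_of_nonneg_left (hP.B2 (y - (h - q)) hp (sub_nonneg.2 hqh)) hk
    have h2 : k * ((1 - s / h) * (p * (h - q))) * h = k * p * (h - q) * (h - s) := by
      field_simp
    have h3 := mul_le_mul_of_nonneg_right h1 hh.le
    rw [h2] at h3
    calc _ ≤ _ := h3
      _ ≤ w * (h - s) := mul_le_mul_of_nonneg_right H (sub_nonneg.2 hsh)
      _ ≤ w * (L0 - L1 * s) := mul_le_mul_of_nonneg_left hL hw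
  rw [div_mul_eq_mul_div, le_div_iff₀ hh]
  exact key

/-- both directions between 60 and 120 -/
theorem Cell.N1 (hh : 0 < h) (hP : Cell h s P) (hs0 : 0 ≤ s) (hsh : s ≤ h) (hL0 : 0 ≤ L0)
    (hk : 0 ≤ k) (hw : 0 ≤ w) (hp : 0 ≤ p) (hq : 0 ≤ q)
    (H : k * p * q * h ≤ w * (L0 - L1 * h)) (y : ℝ) :
    k * -dd h s P y p q ≤ w / h * (L0 - L1 * s) := by
  have key : k * -dd h s P y p q * h ≤ w * (L0 - L1 * s) := by
    have h1 := mul_le_mul_of_nonneg_left (hP.B1 y hp hq) hk
    have h2 : k * (s / h * (p * q)) * h = k * p * q * s := by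
      field_simp
    have h3 := mul_le_mul_of_nonneg_right h1 hh.le
    rw [h2] at h3
    exact h3.trans (scale_left hL0 hw hs0 hsh hh H)
  rw [div_mul_eq_mul_div, le_div_iff₀ hh]
  exact key

/-- the discriminant -/
theorem quad_le (hh : 0 < h) (hk : 0 < k)
    (H : k ^ 2 * (p * q) * ((h - p) * (h - q)) + w ^ 2 * L1 ^ 2 ≤
      k * w * (h * L0 + h * (p + q - h) * L1 - 2 * (p * q) * L1)) (t : ℝ) :
    k * (t / h * (p * q) - (p + q - h + t) ^ 2 / 4) * h ≤ w * (L0 - L1 * t) := by
  have e : k * h * (w * (L0 - L1 * t) - k * (t / h * (p * q) - (p + q - h + t) ^ 2 / 4) * h) =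
      (k * h * (p + q - h + t) / 2 - (k * (p * q) + w * L1)) ^ 2 +
      (k * w * (h * L0 + h * (p + q - h) * L1 - 2 * (p * q) * L1) -
        (k ^ 2 * (p * q) * ((h - p) * (h - q)) + w ^ 2 * L1 ^ 2)) := by
    field_simp
    ring
  have h1 : 0 ≤ k * h * (w * (L0 - L1 * t) -
      k * (t / h * (p * q) - (p + q - h + t) ^ 2 / 4) * h) := by
    rw [e]
    have := sq_nonneg (k * h * (p + q - h + t) / 2 - (k * (p * q) + w * L1))
    linarith
  have h2 := nonneg_of_mul_nonneg_right h1 (mul_pos hk hh)
  linarith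

/-- across the direction 180 -/
theorem Cell.W2 (hh : 0 < h) (hP : Cell h s P) (hs0 : 0 ≤ s) (hsh : s ≤ h) (hL0 : 0 ≤ L0)
    (hLh : 0 ≤ L0 - L1 * h) (hk : 0 < k) (hw : 0 ≤ w) (hp : 0 ≤ p) (hph : p ≤ h) (hq : 0 ≤ q)
    (hqh : q ≤ h)
    (H : k ^ 2 * (p * q) * ((h - p) * (h - q)) + w ^ 2 * L1 ^ 2 ≤
      k * w * (h * L0 + h * (p + q - h) * L1 - 2 * (p * q) * L1)) (y : ℝ) :
    k * -dd h s P y p q ≤ w / h * (L0 - L1 * s) := by
  have hL := aff_pos hL0 hLh hh hs0 hsh
  have hR := quad_le hh hk H
  have key : k * -dd h s P y p q * h ≤ w * (L0 - L1 * s) := by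
    rcases le_total (h - s) (p + q) with c1 | c1
    · rcases le_total (p + q) (h + s) with c2 | c2
      · rcases le_total (h - s) (p - q) with c3 | c3
        · -- `p - q ≥ h - s`
          have h1 := mul_le_mul_of_nonneg_left (hP.B4 hh y hq hph) hk.le
          rw [Cell.dd_comm] at h1
          have h2 : k * (q * (h - s) * (1 - p / h)) * h = k * q * (h - p) * (h - s) := by
            field_simp
          have h3 := mul_le_mul_of_nonneg_right h1 hh.le
          rw [h2] at h3
          rcases (sub_nonneg.2 hsh).eq_or_lt with h4 | h4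
          · rw [← h4, mul_zero] at h3
            have := mul_nonneg hw hL
            linarith
          have h5 := hR (h - (p - q))
          have h6 : k * ((h - (p - q)) / h * (p * q) - (p + q - h + (h - (p - q))) ^ 2 / 4) * h =
              k * q * (h - p) * (h - (h - (p - q))) := by
            field_simp
            ring
          rw [h6] at h5
          exact h3.trans (scale_right hLh hw hsh (by linarith) (by linarith) h5)
        · rcases le_total (h - s) (q - p) with c4 | c4
          · have h1 := mul_le_mul_of_nonneg_left (hP.B4 hh y hp hqh) hk.le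
            have h2 : k * (p * (h - s) * (1 - q / h)) * h = k * p * (h - q) * (h - s) := by
              field_simp
            have h3 := mul_le_mul_of_nonneg_right h1 hh.le
            rw [h2] at h3
            rcases (sub_nonneg.2 hsh).eq_or_lt with h4 | h4
            · rw [← h4, mul_zero] at h3
              have := mul_nonneg hw hL
              linarith
            have h5 := hR (h - (q - p))
            have h6 : k * ((h - (q - p)) / h * (p * q) - (p + q - h + (h - (q - p))) ^ 2 / 4) * h =
                k * p * (h - q) * (h - (h - (q - p))) := by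
              field_simp
              ring
            rw [h6] at h5
            exact h3.trans (scale_right hLh hw hsh (by linarith) (by linarith) h5)
          · have h1 := mul_le_mul_of_nonneg_left (hP.B5 hh y c1 c2 c3 c4) hk.le
            exact (mul_le_mul_of_nonneg_right h1 hh.le).trans (hR s)
      · -- `p + q ≥ h + s`
        have h1 := mul_le_mul_of_nonneg_left (hP.B1 (y - (h - q) - (h - p)) (sub_nonneg.2 hph)
          (sub_nonneg.2 hqh)) hk.le
        rw [← hP.dd_compl2 hh.ne'] at h1
        have h2 : k * (s / h * ((h - p) * (h - q))) * h = k * ((h - p) * (h - q)) * s := by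
          field_simp
        have h3 := mul_le_mul_of_nonneg_right h1 hh.le
        rw [h2] at h3
        rcases hs0.eq_or_lt with h4 | h4
        · rw [← h4, mul_zero] at h3
          have := mul_nonneg hw hL
          rw [← h4] at this
          rw [← h4]
          linarith
        have h5 := hR (p + q - h)
        have h6 : k * ((p + q - h) / h * (p * q) - (p + q - h + (p + q - h)) ^ 2 / 4) * h =
            k * ((h - p) * (h - q)) * (p + q - h) := by
          field_simp
          ring
        rw [h6] at h5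
        exact h3.trans (scale_left hL0 hw hs0 (by linarith) (by linarith) h5)
    · -- `p + q ≤ h - s`
      have h1 := mul_le_mul_of_nonneg_left (hP.B1 y hp hq) hk.le
      have h2 : k * (s / h * (p * q)) * h = k * (p * q) * s := by
        field_simp
      have h3 := mul_le_mul_of_nonneg_right h1 hh.le
      rw [h2] at h3
      rcases hs0.eq_or_lt with h4 | h4
      · rw [← h4, mul_zero] at h3
        have := mul_nonneg hw hL
        rw [← h4] at this
        rw [← h4]
        linarith
      have h5 := hR (h - (p + q))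
      have h6 : k * ((h - (p + q)) / h * (p * q) - (p + q - h + (h - (p + q))) ^ 2 / 4) * h =
          k * (p * q) * (h - (p + q)) := by
        field_simp
        ring
      rw [h6] at h5
      exact h3.trans (scale_left hL0 hw hs0 (by linarith) (by linarith) h5)
  rw [div_mul_eq_mul_div, le_div_iff₀ hh]
  exact key

end Pool.Agent.Strip051.LC.Half
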