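import Mathlib

/-! # The four polynomial inequalities of the unit rhombus

`a`, `b` are the numbers `√3 tan (β / 2)` of two directions, `0 ≤ β ≤ π / 3`. -/

namespace Pool.Agent.Strip051.LC.Half

theorem W0_poly {a b : ℝ} (ha : 0 ≤ a) (hab : a ≤ b) (hb : b ≤ 1) :
    (3 * (1 - a) * (1 - b) + 4 * (a * b)) * (3 - b) ≤
      (3 + a * b + 3 * (b - a)) * (3 + b ^ 2 - 2 * b) := by
  have h1 : 0 ≤ b - a := sub_nonneg.2 hab
  have h2 : 0 ≤ 1 - b := sub_nonneg.2 hb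
  nlinarith [mul_nonneg ha h1, mul_nonneg h2 ha, mul_nonneg h2 h1, mul_nonneg ha (mul_nonneg h2 h1),
    mul_nonneg ha (mul_nonneg h2 h2), mul_nonneg (mul_nonneg ha ha) (mul_nonneg h2 h1)]

theorem N0_poly {a b : ℝ} (ha : 0 ≤ a) (hab : a ≤ b) (hb : b ≤ 1) :
    (b - a) * (3 * (1 - a) * (1 - b) + 4 * (a * b)) * (3 - b) ≤
      b * (1 - a) * (3 + a * b - 3 * (b - a)) * (3 + a * b - (b - a)) := by
  have hb0 : 0 ≤ b := ha.trans hab
  have e : b * (1 - a) * (3 + a * b - 3 * (b - a)) * (3 + a * b - (b - a)) -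
      (b - a) * (3 * (1 - a) * (1 - b) + 4 * (a * b)) * (3 - b) =
      a * (9 * (1 - b ^ 2) - a * (9 - 15 * b + 3 * b ^ 2 - 5 * b ^ 3) -
        a ^ 2 * (3 * b + 4 * b ^ 2 + b ^ 3)) := by ring
  have e2 : b * (9 * (1 - b ^ 2) - a * (9 - 15 * b + 3 * b ^ 2 - 5 * b ^ 3) -
        a ^ 2 * (3 * b + 4 * b ^ 2 + b ^ 3)) =
      (b - a) * (9 * ((1 - b) * (1 + b))) + a * ((1 - b) * (3 + b ^ 2) ^ 2) +
        b * (a * (b - a)) * (3 * b + 4 * b ^ 2 + b ^ 3) := by ring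
  have h1 : 0 ≤ b - a := sub_nonneg.2 hab
  have h2 : 0 ≤ 1 - b := sub_nonneg.2 hb
  rcases hb0.eq_or_lt with h3 | h3
  · have h4 : a = 0 := le_antisymm (h3 ▸ hab) ha
    rw [← h3, h4]; norm_num
  have h5 : 0 ≤ b * (9 * (1 - b ^ 2) - a * (9 - 15 * b + 3 * b ^ 2 - 5 * b ^ 3) -
        a ^ 2 * (3 * b + 4 * b ^ 2 + b ^ 3)) := by
    rw [e2]; positivity
  have h6 := mul_nonneg ha (nonneg_of_mul_nonneg_right h5 h3)
  rw [← e] at h6
  linarith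

theorem N1_poly {a b : ℝ} (ha : 0 ≤ a) (hab : a ≤ b) (hb : b ≤ 1) :
    2 * (b - a) * (3 * (1 - a) * (1 - b) + 4 * (a * b)) ≤
      (3 + a * b - 3 * (b - a)) * (3 + a * b - (b - a)) := by
  have h1 : 0 ≤ b - a := sub_nonneg.2 hab
  have h2 : 0 ≤ 1 - b := sub_nonneg.2 hb
  nlinarith [mul_nonneg ha h1, mul_nonneg h2 ha, mul_nonneg h2 h1, mul_nonneg ha (mul_nonneg h2 h1),
    mul_nonneg ha (mul_nonneg h2 h2), mul_nonneg (mul_nonneg ha ha) (mul_nonneg h2 h1)]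

theorem W2_poly {X Y : ℝ} (hX : 0 ≤ X) (hY : 0 ≤ Y) (h4 : 4 * Y ≤ X ^ 2) (h3 : 3 * X + Y ≤ 3) :
    8 * (X - 2 * Y) ^ 2 * (9 - 3 * X + Y) + 2 * Y * (1 - X + Y) * (3 - X - Y) ^ 2 ≤
      (X - 2 * Y) * (3 - X - Y) * ((3 - Y) ^ 2 + 3 * X ^ 2 + 12 * X + 4 * X * Y - 32 * Y) := by
  obtain ⟨m, hm⟩ : ∃ m, m = 1 - Y / 3 - X := ⟨_, rfl⟩
  have hX' : X = 1 - m - Y / 3 := by rw [hm]; ring
  have hm0 : 0 ≤ m := by rw [hm]; linarith
  have hm1 : m ≤ 1 := by linarith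
  have hY4 : Y ≤ (1 - m) ^ 2 / 4 := by
    have : X ^ 2 ≤ (1 - m) ^ 2 := pow_le_pow_left₀ hX (by linarith) 2
    linarith
  have n1 : 0 ≤ 1 - m := by linarith
  have e : (X - 2 * Y) * (3 - X - Y) * ((3 - Y) ^ 2 + 3 * X ^ 2 + 12 * X + 4 * X * Y - 32 * Y) -
      (8 * (X - 2 * Y) ^ 2 * (9 - 3 * X + Y) + 2 * Y * (1 - X + Y) * (3 - X - Y) ^ 2) =
      3 * m * (1 - m) * (2 + m) ^ 2 + 4 * (m * Y) - 5 * (m ^ 3 * Y) - 80 * (m ^ 2 * Y) +
      Y ^ 2 * (160 / 3 - 484 * m / 3 + 8 * m ^ 2) - Y ^ 2 * Y * ((1280 + 4 * m) / 9) -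
      Y ^ 2 * Y ^ 2 * (32 / 27) := by
    rw [hX']; ring
  have a1 : m ^ 2 * Y ≤ m ^ 2 * ((1 - m) ^ 2 / 4) := mul_le_mul_of_nonneg_left hY4 (sq_nonneg m)
  have a2 : Y ^ 2 * Y * ((1280 + 4 * m) / 9) ≤ Y ^ 2 * ((1 - m) ^ 2 / 4) * ((1280 + 4 * m) / 9) :=
    mul_le_mul_of_nonneg_right (mul_le_mul_of_nonneg_left hY4 (sq_nonneg Y)) (by positivity)
  have a3 : Y ^ 2 ≤ (1 - m) ^ 4 / 16 := by
    have := pow_le_pow_left₀ hY hY4 2
    calc Y ^ 2 ≤ _ := this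
      _ = (1 - m) ^ 4 / 16 := by ring
  have a4 : Y ^ 2 * Y ^ 2 ≤ Y ^ 2 * ((1 - m) ^ 4 / 16) := mul_le_mul_of_nonneg_left a3 (sq_nonneg Y)
  have a5 : 17 - 118 * m ≤ 160 / 3 - 484 * m / 3 + 8 * m ^ 2 -
      (1 - m) ^ 2 / 4 * ((1280 + 4 * m) / 9) - (1 - m) ^ 4 / 16 * (32 / 27) := by
    nlinarith [mul_nonneg hm0 n1, mul_nonneg (mul_nonneg hm0 n1) n1,
      mul_nonneg hm0 (mul_nonneg hm0 n1)]
  have a6 : Y ^ 2 * (17 - 118 * m) ≤ Y ^ 2 * (160 / 3 - 484 * m / 3 + 8 * m ^ 2 -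
      (1 - m) ^ 2 / 4 * ((1280 + 4 * m) / 9) - (1 - m) ^ 4 / 16 * (32 / 27)) :=
    mul_le_mul_of_nonneg_left a5 (sq_nonneg Y)
  have a7 : m * Y ^ 2 ≤ m * ((1 - m) ^ 4 / 16) := mul_le_mul_of_nonneg_left a3 hm0
  have a8 : m ^ 3 * Y ≤ m ^ 3 * ((1 - m) ^ 2 / 4) := mul_le_mul_of_nonneg_left hY4 (by positivity)
  have a9 : m ^ 3 * Y ≤ m * Y := by
    have : m ^ 2 ≤ 1 := pow_le_one₀ hm0 hm1
    have h := mul_nonneg (mul_nonneg hm0 hY) (sub_nonneg.2 this)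
    calc m ^ 3 * Y = m * Y - m * Y * (1 - m ^ 2) := by ring
      _ ≤ m * Y := by linarith
  have a10 : 0 ≤ 3 * m * (1 - m) * (2 + m) ^ 2 - m ^ 3 * ((1 - m) ^ 2 / 4) -
      80 * (m ^ 2 * ((1 - m) ^ 2 / 4)) - 118 * (m * ((1 - m) ^ 4 / 16)) := by
    have : 0 ≤ 3 * (2 + m) ^ 2 - m ^ 2 * ((1 - m) / 4) - 80 * (m * ((1 - m) / 4)) -
        118 * ((1 - m) ^ 3 / 16) := by
      nlinarith [mul_nonneg hm0 n1, mul_nonneg (mul_nonneg hm0 n1) n1,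
        mul_nonneg hm0 (mul_nonneg hm0 n1)]
    calc (0 : ℝ) ≤ m * (1 - m) * (3 * (2 + m) ^ 2 - m ^ 2 * ((1 - m) / 4) -
          80 * (m * ((1 - m) / 4)) - 118 * ((1 - m) ^ 3 / 16)) :=
          mul_nonneg (mul_nonneg hm0 n1) this
      _ = _ := by ring
  have a11 := sq_nonneg Y
  linarith

/-! ### the scaled forms -/

/-- the difference of two kernel values -/
noncomputable def KK (a b : ℝ) : ℝ :=
  (b - a) * (3 * (1 - a) * (1 - b) + 4 * (a * b)) / (4 * (a * b) * ((1 - a) * (1 - b)))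

/-- `sin β / h` -/
noncomputable def sn (a : ℝ) : ℝ := 4 * a / (3 + a ^ 2)

/-- `(sin (60 + β) - h) / h` -/
noncomputable def us (a : ℝ) : ℝ := 2 * a * (1 - a) / (3 + a ^ 2)

/-- `(h - sin δ) / h` for the difference `δ` -/
noncomputable def ws (a b : ℝ) : ℝ :=
  (3 + a * b - 3 * (b - a)) * (3 + a * b - (b - a)) / ((3 + a ^ 2) * (3 + b ^ 2))

/-- `(h - sin (60 - δ)) / h` for the difference `δ` -/
noncomputable def wd (a b : ℝ) : ℝ :=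
  2 * (b - a) * (3 + a * b + 3 * (b - a)) / ((3 + a ^ 2) * (3 + b ^ 2))

theorem pos3 (a : ℝ) : 0 < 3 + a ^ 2 := by positivity

theorem KK_nonneg {a b : ℝ} (ha : 0 < a) (hab : a ≤ b) (hb : b < 1) : 0 ≤ KK a b := by
  have h1 : 0 ≤ b - a := sub_nonneg.2 hab
  have h2 : 0 < 1 - b := sub_pos.2 hb
  have h3 : 0 < 1 - a := by linarith
  have h4 : 0 < b := by linarith
  unfold KK
  positivity

theorem W0_s {a b : ℝ} (ha : 0 < a) (hab : a ≤ b) (hb : b < 1) :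
    KK a b * us a * sn b * (1 - sn b) ≤ wd a b * (1 - sn b / 2) := by
  have h1 : 0 ≤ b - a := sub_nonneg.2 hab
  have h2 : 0 < 1 - b := sub_pos.2 hb
  have h3 : 0 < 1 - a := by linarith
  have h4 : 0 < b := by linarith
  have e1 := pos3 a
  have e2 := pos3 b
  have e : wd a b * (1 - sn b / 2) - KK a b * us a * sn b * (1 - sn b) =
      2 * (b - a) / ((3 + a ^ 2) * (3 + b ^ 2) ^ 2) *
      ((3 + a * b + 3 * (b - a)) * (3 + b ^ 2 - 2 * b) -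
        (3 * (1 - a) * (1 - b) + 4 * (a * b)) * (3 - b)) := by
    unfold wd KK us sn
    field_simp
    ring
  have h5 := sub_nonneg.2 (W0_poly ha.le hab hb.le)
  have h6 : 0 ≤ wd a b * (1 - sn b / 2) - KK a b * us a * sn b * (1 - sn b) := by
    rw [e]
    exact mul_nonneg (by positivity) h5
  linarith

theorem N0_s {a b : ℝ} (ha : 0 < a) (hab : a ≤ b) (hb : b < 1) :
    KK a b * sn a * (1 - sn b) ≤ ws a b := by
  have h1 : 0 ≤ b - a := sub_nonneg.2 hab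
  have h2 : 0 < 1 - b := sub_pos.2 hb
  have h3 : 0 < 1 - a := by linarith
  have h4 : 0 < b := by linarith
  have e1 := pos3 a
  have e2 := pos3 b
  have e : ws a b - KK a b * sn a * (1 - sn b) =
      1 / ((3 + a ^ 2) * (3 + b ^ 2) * (b * (1 - a))) *
      (b * (1 - a) * (3 + a * b - 3 * (b - a)) * (3 + a * b - (b - a)) -
        (b - a) * (3 * (1 - a) * (1 - b) + 4 * (a * b)) * (3 - b)) := by
    unfold ws KK sn
    field_simp
    ring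
  have h5 := sub_nonneg.2 (N0_poly ha.le hab hb.le)
  have h6 : 0 ≤ ws a b - KK a b * sn a * (1 - sn b) := by
    rw [e]
    exact mul_nonneg (by positivity) h5
  linarith

theorem N1_s {a b : ℝ} (ha : 0 < a) (hab : a ≤ b) (hb : b < 1) :
    2 * (KK a b * us a * us b) ≤ ws a b := by
  have h1 : 0 ≤ b - a := sub_nonneg.2 hab
  have h2 : 0 < 1 - b := sub_pos.2 hb
  have h3 : 0 < 1 - a := by linarith
  have h4 : 0 < b := by linarith
  have e1 := pos3 a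
  have e2 := pos3 b
  have e : ws a b - 2 * (KK a b * us a * us b) =
      1 / ((3 + a ^ 2) * (3 + b ^ 2)) *
      ((3 + a * b - 3 * (b - a)) * (3 + a * b - (b - a)) -
        2 * (b - a) * (3 * (1 - a) * (1 - b) + 4 * (a * b))) := by
    unfold ws KK us
    field_simp
    ring
  have h5 := sub_nonneg.2 (N1_poly ha.le hab hb.le)
  have h6 : 0 ≤ ws a b - 2 * (KK a b * us a * us b) := by
    rw [e]
    exact mul_nonneg (by positivity) h5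
  linarith

/-- the sum of two kernel values -/
noncomputable def K2 (a b : ℝ) : ℝ :=
  (3 - 3 * (a + b) - a * b) * (a + b - 2 * (a * b)) / (4 * (a * b) * ((1 - a) * (1 - b)))

/-- `(h - sin (α + β)) / h` -/
noncomputable def wp (a b : ℝ) : ℝ :=
  (3 - 3 * (a + b) - a * b) * (3 - (a + b) - a * b) / ((3 + a ^ 2) * (3 + b ^ 2))

theorem W2_s {a b : ℝ} (ha : 0 < a) (ha1 : a < 1) (hb : 0 < b) (hb1 : b < 1)
    (h3 : 3 * (a + b) + a * b ≤ 3) :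
    4 * (K2 a b ^ 2 * (sn b * sn a) * ((1 - sn b) * (1 - sn a))) + wp a b ^ 2 ≤
      2 * (K2 a b * wp a b * (1 + sn b + sn a - 2 * (sn b * sn a))) := by
  have h1 : 0 < 1 - a := sub_pos.2 ha1
  have h2 : 0 < 1 - b := sub_pos.2 hb1
  have e1 := pos3 a
  have e2 := pos3 b
  have e : 2 * (K2 a b * wp a b * (1 + sn b + sn a - 2 * (sn b * sn a))) -
      (4 * (K2 a b ^ 2 * (sn b * sn a) * ((1 - sn b) * (1 - sn a))) + wp a b ^ 2) =
      (3 - 3 * (a + b) - a * b) ^ 2 /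
        (2 * (a * b) * ((1 - a) * (1 - b)) * ((3 + a ^ 2) ^ 2 * (3 + b ^ 2) ^ 2)) *
      ((a + b - 2 * (a * b)) * (3 - (a + b) - a * b) *
        ((3 - a * b) ^ 2 + 3 * (a + b) ^ 2 + 12 * (a + b) + 4 * (a + b) * (a * b) - 32 * (a * b)) -
      (8 * (a + b - 2 * (a * b)) ^ 2 * (9 - 3 * (a + b) + a * b) +
        2 * (a * b) * (1 - (a + b) + a * b) * (3 - (a + b) - a * b) ^ 2)) := by
    unfold K2 wp sn
    field_simp
    ring
  have h5 := sub_nonneg.2 (W2_poly (X := a + b) (Y := a * b) (by positivity) (by positivity)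
    (by nlinarith [sq_nonneg (a - b)]) h3)
  have h6 : 0 ≤ 2 * (K2 a b * wp a b * (1 + sn b + sn a - 2 * (sn b * sn a))) -
      (4 * (K2 a b ^ 2 * (sn b * sn a) * ((1 - sn b) * (1 - sn a))) + wp a b ^ 2) := by
    rw [e]
    exact mul_nonneg (by positivity) h5
  linarith

end Pool.Agent.Strip051.LC.Half
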