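import Pool.Agent.Strip051.LC.Half.Unit

/-! # The unit rhombus: continuity, and the field `rhomb` -/

namespace Pool.Agent.Strip051.LC.Half

open Real MeasureTheory intervalIntegral Pool.Agent.StripNear Pool.Agent.Strip051.LC.Line
open Filter Topology

variable {R : ℝ → ℝ → ℝ} {c s κ : ℝ}

/-- the chart around the horizontal directions -/
noncomputable def a0 (c θ : ℝ) : ℝ := c * (cos θ / |cos θ| *
  ((|cos θ| - 2 * h0 * |sin θ|) * (1 + |cos θ|) / (1 + |cos θ| - 2 * h0 * |sin θ|)))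

/-- the chart around the direction 60 from below -/
noncomputable def a1 (c θ : ℝ) : ℝ := c * (cos θ / |cos θ| *
  ((1 + 2 * |cos θ|) * (2 * h0 * |sin θ| - |cos θ|) / (2 * (1 + 2 * h0 * |sin θ| - |cos θ|))))

/-- the mean over the edge -/
noncomputable def m0 (s κ θ y : ℝ) : ℝ := mn (D s κ) (min y (y + sin θ)) (max y (y + sin θ))

/-- the mean over the rest of the period -/
noncomputable def m1 (s κ θ y : ℝ) : ℝ := mn (D s κ) (min y (y + sin θ)) (max y (y + sin θ) - h0)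

theorem D_cont (hs0 : 0 ≤ s) (hs1 : s < h0) : Continuous (D s κ) :=
  Dd_continuous h0_pos hs0 hs1.le

theorem mn_cont2 {f : ℝ → ℝ} (hf : Continuous f) {u v : ℝ × ℝ → ℝ} (hu : Continuous u)
    (hv : Continuous v) : Continuous fun p => mn f (u p) (v p) := by
  have h := mn_continuous hf
  generalize hF : (fun p : ℝ × ℝ => mn f p.1 p.2) = F at h
  have e : (fun p => mn f (u p) (v p)) = fun p => F (u p, v p) := by
    funext p
    rw [← hF]
  rw [e]
  exact h.comp (hu.prodMk hv)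

theorem m0_cont (hs0 : 0 ≤ s) (hs1 : s < h0) : Continuous fun p : ℝ × ℝ => m0 s κ p.1 p.2 := by
  unfold m0
  exact mn_cont2 (D_cont hs0 hs1) (by fun_prop) (by fun_prop)

theorem m1_cont (hs0 : 0 ≤ s) (hs1 : s < h0) : Continuous fun p : ℝ × ℝ => m1 s κ p.1 p.2 := by
  unfold m1
  exact mn_cont2 (D_cont hs0 hs1) (by fun_prop) (by fun_prop)

theorem max_eq_min_add (y t : ℝ) : max y (y + t) = min y (y + t) + |t| := by
  rcases le_total 0 t with h | h
  · rw [max_eq_right (by linarith), min_eq_left (by linarith), abs_of_nonneg h]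
  · rw [max_eq_left (by linarith), min_eq_right (by linarith), abs_of_nonpos h]
    ring

theorem m0_m1 (hs0 : 0 ≤ s) (hs1 : s < h0) (θ y : ℝ) :
    (|sin θ| - h0) * m1 s κ θ y = |sin θ| * m0 s κ θ y := by
  unfold m0 m1
  rw [max_eq_min_add, mn_Th hs0 hs1, mn_T]

theorem circle_abs (θ : ℝ) : |cos θ| ^ 2 + |sin θ| ^ 2 = 1 := by
  rw [sq_abs, sq_abs, add_comm]
  exact sin_sq_add_cos_sq θ

theorem abs_cos_gt {θ : ℝ} (h : |sin θ| < h0) : 1 / 2 < |cos θ| := by
  have h1 := circle_abs θ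
  have h2 := abs_nonneg (cos θ)
  have h3 := abs_nonneg (sin θ)
  have h4 := h0_sq
  have h5 := h0_pos
  by_contra hc
  push Not at hc
  nlinarith

/-- the kernel for both signs of `X` -/
theorem UnitKer.sgn (hR : UnitKer R c) (X T : ℝ) (hX : X ≠ 0) : R X T = X / |X| * R |X| T := by
  rcases lt_or_gt_of_ne hX with h | h
  · rw [abs_of_neg h, hR.odd]
    field_simp
  · rw [abs_of_pos h, div_self hX, one_mul]

theorem V_zero (hR : UnitKer R c) (hs0 : 0 ≤ s) (hs1 : s < h0) {θ : ℝ} (h : |sin θ| < h0) (y : ℝ) :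
    V R s κ θ y = a0 c θ * m0 s κ θ y := by
  have h1 := circle_abs θ
  have h2 := abs_cos_gt h
  have h3 := abs_nonneg (sin θ)
  have h4 : cos θ ≠ 0 := by
    intro h5
    rw [h5, abs_zero] at h2
    linarith
  have hp := h0_pos
  unfold V Qd a0
  rw [add_sub_cancel_left, hR.sgn _ _ h4]
  rcases lt_or_ge (|sin θ|) (h0 / 2) with c5 | c5
  · have e : jn |sin θ| = 0 := by
      unfold jn
      rw [if_pos c5]
    rw [e, hR.low _ _ (by linarith) h3 h1 c5]
    unfold m0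
    push_cast
    ring_nf
  · have e : jn |sin θ| = 1 := by
      unfold jn
      rw [if_neg c5.not_gt, if_pos (by linarith)]
    have h6 : 0 < |sin θ| := by linarith
    have k := m0_m1 (κ := κ) hs0 hs1 θ y
    rw [e, hR.mid _ _ (by linarith) h1 c5 h.le, mid_eq h2 h6 h1 h, low_eq h2 h6 h1 h]
    unfold m1 at k
    push_cast
    rw [one_mul]
    linear_combination c * (cos θ / |cos θ|) *
      ((|cos θ| / 2 - h0 * |sin θ|) / (|sin θ| / 2 + h0 * |cos θ| - h0)) * k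

theorem jn_one {T : ℝ} (h1 : h0 / 2 ≤ T) (h2 : T ≤ 1) : jn T = 1 := by
  unfold jn
  rw [if_neg h1.not_gt, if_pos (by linarith [h0_gt])]

theorem V_mid (hR : UnitKer R c) {θ : ℝ} (h1 : h0 / 2 ≤ |sin θ|) (h2 : |sin θ| ≤ h0) (y : ℝ) :
    V R s κ θ y = a1 c θ * m1 s κ θ y := by
  have h3 := circle_abs θ
  have hp := h0_pos
  have h4 : cos θ ≠ 0 := by
    intro h5
    rw [h5, abs_zero] at h3
    have := h0_sq
    nlinarith
  have h5 : 0 < |cos θ| := abs_pos.2 h4
  unfold V Qd a1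
  rw [add_sub_cancel_left, hR.sgn _ _ h4, jn_one h1 (abs_sin_le_one θ), hR.mid _ _ h5 h3 h1 h2]
  unfold m1
  push_cast
  ring_nf

theorem V_high (hR : UnitKer R c) {θ : ℝ} (h1 : h0 ≤ |sin θ|) (y : ℝ) :
    V R s κ θ y = c * cos θ * m1 s κ θ y := by
  have h3 := circle_abs θ
  have hp := h0_pos
  have e : R (cos θ) |sin θ| = c * cos θ := by
    rcases eq_or_ne (cos θ) 0 with h4 | h4
    · have := hR.odd 0 |sin θ|
      rw [neg_zero] at this
      rw [h4]
      linarith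
    · have h5 : 0 < |cos θ| := abs_pos.2 h4
      rw [hR.sgn _ _ h4, hR.high _ _ h5 h3 h1]
      field_simp
  unfold V Qd
  rw [add_sub_cancel_left, jn_one (by linarith) (abs_sin_le_one θ), e]
  unfold m1
  push_cast
  ring_nf

theorem contAt_or {f f1 f2 : ℝ × ℝ → ℝ} {x : ℝ × ℝ} (h1 : ContinuousAt f1 x)
    (h2 : ContinuousAt f2 x) (e1 : f x = f1 x) (e2 : f x = f2 x)
    (h : ∀ᶠ z in 𝓝 x, f z = f1 z ∨ f z = f2 z) : ContinuousAt f x := by
  rw [Metric.continuousAt_iff'] at *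
  intro ε hε
  filter_upwards [h1 ε hε, h2 ε hε, h] with z k1 k2 k3
  rcases k3 with k | k
  · rw [k, e1]; exact k1
  · rw [k, e2]; exact k2

/-- The flux of a unit edge is continuous. -/
theorem V_cont (hR : UnitKer R c) (hs0 : 0 ≤ s) (hs1 : s < h0) :
    Continuous fun p : ℝ × ℝ => V R s κ p.1 p.2 := by
  have hp := h0_pos
  have hm0 := m0_cont (κ := κ) hs0 hs1
  have hm1 := m1_cont (κ := κ) hs0 hs1
  have hT : Continuous fun p : ℝ × ℝ => |sin p.1| := by fun_prop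
  have hX : Continuous fun p : ℝ × ℝ => |cos p.1| := by fun_prop
  rw [continuous_iff_continuousAt]
  rintro ⟨θ, y⟩
  have hc := circle_abs θ
  rcases lt_or_ge |sin θ| h0 with h | h
  · have h2 := abs_cos_gt h
    have h3 : |cos θ| ≠ 0 := by linarith
    have h4 : 1 + |cos θ| - 2 * h0 * |sin θ| ≠ 0 := (den_pos h2 hc h).ne'
    have key : ContinuousAt (fun p : ℝ × ℝ => a0 c p.1 * m0 s κ p.1 p.2) (θ, y) := by
      refine ContinuousAt.mul ?_ hm0.continuousAt
      unfold a0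
      refine ContinuousAt.mul continuousAt_const (ContinuousAt.mul
        (ContinuousAt.div (by fun_prop) hX.continuousAt h3)
        (ContinuousAt.div (by fun_prop) (by fun_prop) h4))
    refine key.congr ?_
    filter_upwards [hT.continuousAt.eventually (gt_mem_nhds h)] with p hp'
    exact (V_zero hR hs0 hs1 hp' p.2).symm
  · have key2 : ContinuousAt (fun p : ℝ × ℝ => c * cos p.1 * m1 s κ p.1 p.2) (θ, y) := by
      refine ContinuousAt.mul (by fun_prop) hm1.continuousAt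
    rcases h.eq_or_lt with h1 | h1
    · have hx : |cos θ| = 1 / 2 := by
        have h5 := abs_nonneg (cos θ)
        have h6 := h0_sq
        rw [← h1] at hc
        nlinarith
      have key1 : ContinuousAt (fun p : ℝ × ℝ => a1 c p.1 * m1 s κ p.1 p.2) (θ, y) := by
        refine ContinuousAt.mul ?_ hm1.continuousAt
        unfold a1
        refine ContinuousAt.mul continuousAt_const (ContinuousAt.mul
          (ContinuousAt.div (by fun_prop) hX.continuousAt (by rw [hx]; norm_num))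
          (ContinuousAt.div (by fun_prop) (by fun_prop) ?_))
        have h6 := h0_sq
        simp only
        rw [hx, ← h1]
        nlinarith
      refine contAt_or key1 key2 (V_mid hR (by linarith) h1.ge y) (V_high hR h y) ?_
      filter_upwards [hT.continuousAt.eventually (lt_mem_nhds (by linarith : h0 / 2 < |sin θ|))]
        with p hp'
      rcases le_total |sin p.1| h0 with h7 | h7
      · exact Or.inl (V_mid hR hp'.le h7 p.2)
      · exact Or.inr (V_high hR h7 p.2)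
    · refine key2.congr ?_
      filter_upwards [hT.continuousAt.eventually (lt_mem_nhds h1)] with p hp'
      exact (V_high hR hp'.le p.2).symm

/-- The flux around the rhombus. -/
noncomputable def Phi (R : ℝ → ℝ → ℝ) (s κ δ y θ : ℝ) : ℝ :=
  V R s κ θ y + V R s κ (θ + δ) (y + sin θ) - V R s κ (θ + δ) y - V R s κ θ (y + sin (θ + δ))

theorem Phi_cont (hR : UnitKer R c) (hs0 : 0 ≤ s) (hs1 : s < h0) (δ y : ℝ) :
    Continuous (Phi R s κ δ y) := by
  have h := V_cont (κ := κ) hR hs0 hs1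
  have h1 : Continuous fun θ : ℝ => V R s κ θ y := h.comp (by fun_prop : Continuous fun θ : ℝ =>
    (θ, y))
  have h2 : Continuous fun θ : ℝ => V R s κ (θ + δ) (y + sin θ) :=
    h.comp (by fun_prop : Continuous fun θ : ℝ => (θ + δ, y + sin θ))
  have h3 : Continuous fun θ : ℝ => V R s κ (θ + δ) y :=
    h.comp (by fun_prop : Continuous fun θ : ℝ => (θ + δ, y))
  have h4 : Continuous fun θ : ℝ => V R s κ θ (y + sin (θ + δ)) :=
    h.comp (by fun_prop : Continuous fun θ : ℝ => (θ, y + sin (θ + δ)))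
  exact ((h1.add h2).sub h3).sub h4

theorem Phi_reg (hR : UnitKer R c) (hs0 : 0 ≤ s) (hs1 : s < h0) (hc : 0 ≤ c) (hκ : 0 ≤ κ)
    (hcκ : c * κ * (h0 - s / 2) ≤ 1) {δ θ : ℝ} (h1 : 0 < θ) (h2 : θ < π) (h3 : 0 ≤ δ)
    (h4 : δ ≤ π / 3) (n1 : θ ≠ π / 3) (n2 : θ ≠ 2 * (π / 3)) (m1 : θ + δ ≠ π / 3)
    (m2 : θ + δ ≠ 2 * (π / 3)) (m3 : θ + δ ≠ π) (y : ℝ) :
    Phi R s κ δ y θ ≤ 1 - sin δ / h0 := by
  have hp := Real.pi_pos
  have hh := h0_pos
  have key := rhombus KD_ker (cell hs0 hs1) hs1.le hs0 h1 h2 h3 h4 n1 n2 m1 m2 m3 y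
  have e : Phi R s κ δ y θ = c * κ *
      ((KD (θ + δ) - KD θ) * dd h0 s (Pp h0 s) y (sin θ) (sin (θ + δ))) := by
    unfold Phi
    rw [V_reg hR hs0 hs1 h1 (by linarith) n1 n2 (by linarith),
      V_reg hR hs0 hs1 (by linarith) (by linarith) m1 m2 m3,
      V_reg hR hs0 hs1 (by linarith) (by linarith) m1 m2 m3,
      V_reg hR hs0 hs1 h1 (by linarith) n1 n2 (by linarith)]
    have d1 := second_diff (κ := κ) hs0 hs1 y (sin θ) (sin (θ + δ))
    have d2 := second_diff (κ := κ) hs0 hs1 y (sin (θ + δ)) (sin θ)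
    rw [Cell.dd_comm] at d2
    linear_combination (-(c * KD θ)) * d1 + c * KD (θ + δ) * d2
  have hw : 0 ≤ 1 - sin δ / h0 := by
    have : sin δ ≤ h0 := by
      rw [h0_eq_sin]
      exact sin_le_sin_of_le_of_le_pi_div_two (by linarith) (by linarith) h4
    rw [sub_nonneg, div_le_one hh]
    exact this
  rw [e]
  calc c * κ * ((KD (θ + δ) - KD θ) * dd h0 s (Pp h0 s) y (sin θ) (sin (θ + δ)))
      ≤ c * κ * ((1 - sin δ / h0) * (h0 - s / 2)) :=
        mul_le_mul_of_nonneg_left key (mul_nonneg hc hκ)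
    _ = (1 - sin δ / h0) * (c * κ * (h0 - s / 2)) := by ring
    _ ≤ (1 - sin δ / h0) * 1 := mul_le_mul_of_nonneg_left hcκ hw
    _ = _ := mul_one _

theorem Phi_le (hR : UnitKer R c) (hs0 : 0 ≤ s) (hs1 : s < h0) (hc : 0 ≤ c) (hκ : 0 ≤ κ)
    (hcκ : c * κ * (h0 - s / 2) ≤ 1) {δ θ : ℝ} (h1 : 0 ≤ θ) (h2 : θ ≤ π) (h3 : 0 ≤ δ)
    (h4 : δ ≤ π / 3) (y : ℝ) : Phi R s κ δ y θ ≤ 1 - sin δ / h0 := by
  have hp := Real.pi_pos
  set F : Set ℝ := {π / 3, 2 * (π / 3), π / 3 - δ, 2 * (π / 3) - δ, π - δ} with hF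
  have hfin : F.Finite := by
    rw [hF]
    exact Set.toFinite _
  have hd : Dense Fᶜ := hfin.countable.dense_compl ℝ
  have hcl : IsClosed {θ | Phi R s κ δ y θ ≤ 1 - sin δ / h0} :=
    isClosed_le (Phi_cont hR hs0 hs1 δ y) continuous_const
  have h5 : Set.Ioo 0 π ∩ Fᶜ ⊆ {θ | Phi R s κ δ y θ ≤ 1 - sin δ / h0} := by
    rintro x ⟨⟨x1, x2⟩, x3⟩
    rw [hF] at x3
    simp only [Set.mem_compl_iff, Set.mem_insert_iff, Set.mem_singleton_iff, not_or] at x3
    obtain ⟨y1, y2, y3, y4, y5⟩ := x3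
    exact Phi_reg hR hs0 hs1 hc hκ hcκ x1 x2 h3 h4 y1 y2 (fun h => y3 (by linarith))
      (fun h => y4 (by linarith)) (fun h => y5 (by linarith)) y
  have h6 : Set.Ioo 0 π ⊆ {θ | Phi R s κ δ y θ ≤ 1 - sin δ / h0} :=
    (hd.open_subset_closure_inter isOpen_Ioo).trans (closure_minimal h5 hcl)
  have h7 : Set.Icc 0 π ⊆ {θ | Phi R s κ δ y θ ≤ 1 - sin δ / h0} := by
    rw [← closure_Ioo hp.ne]
    exact closure_minimal h6 hcl
  exact h7 ⟨h1, h2⟩

/-- **The field `rhomb`.** -/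
theorem rhomb (hR : UnitKer R c) (hs0 : 0 ≤ s) (hs1 : s < h0) (hc : 0 ≤ c) (hκ : 0 ≤ κ)
    (hcκ : c * κ * (h0 - s / 2) ≤ 1) : Rhomb (Qd R (D s κ)) := by
  have hh := h0_pos
  have pos : ∀ y X1 Y1 X2 Y2 : ℝ, X1 ^ 2 + Y1 ^ 2 = 1 → X2 ^ 2 + Y2 ^ 2 = 1 →
      0 ≤ X1 * Y2 - Y1 * X2 → 3 < (X1 + X2) ^ 2 + (Y1 + Y2) ^ 2 → 0 ≤ Y1 →
      (X1 * Y2 - Y1 * X2) / h0 + (Qd R (D s κ) X1 y (y + Y1) +
        Qd R (D s κ) X2 (y + Y1) (y + Y1 + Y2) -
        Qd R (D s κ) X2 y (y + Y2) - Qd R (D s κ) X1 (y + Y2) (y + Y1 + Y2)) ≤ 1 := by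
    intro y X1 Y1 X2 Y2 k1 k2 k3 k4 k5
    set d := X1 * X2 + Y1 * Y2 with hd
    set r := X1 * Y2 - Y1 * X2 with hr
    have e1 : d ^ 2 + r ^ 2 = 1 := by
      have : d ^ 2 + r ^ 2 = (X1 ^ 2 + Y1 ^ 2) * (X2 ^ 2 + Y2 ^ 2) := by
        rw [hd, hr]; ring
      rw [this, k1, k2, one_mul]
    have e2 : 1 / 2 < d := by
      rw [hd]; nlinarith
    have e3 : d ≤ 1 := by nlinarith [sq_nonneg r]
    have e4 : cos (arccos d) = d := cos_arccos (by linarith) e3
    have e5 : sin (arccos d) = r := by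
      rw [sin_arccos, show 1 - d ^ 2 = r ^ 2 by linarith]
      exact Real.sqrt_sq k3
    have e6 : arccos d ≤ π / 3 := by
      have : arccos d ≤ arccos (1 / 2) := arccos_le_arccos e2.le
      rwa [← Real.cos_pi_div_three, arccos_cos (by positivity) (by linarith [Real.pi_pos])] at this
    have e7 : X1 ≤ 1 := by nlinarith [sq_nonneg Y1]
    have e8 : -1 ≤ X1 := by nlinarith [sq_nonneg Y1]
    have f1 : cos (arccos X1) = X1 := cos_arccos e8 e7
    have f2 : sin (arccos X1) = Y1 := by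
      rw [sin_arccos, show 1 - X1 ^ 2 = Y1 ^ 2 by linarith]
      exact Real.sqrt_sq k5
    have f3 : cos (arccos X1 + arccos d) = X2 := by
      rw [cos_add, f1, f2, e4, e5, hd, hr]
      linear_combination X2 * k1
    have f4 : sin (arccos X1 + arccos d) = Y2 := by
      rw [sin_add, f1, f2, e4, e5, hd, hr]
      linear_combination Y2 * k1
    have key := Phi_le (κ := κ) hR hs0 hs1 hc hκ hcκ (arccos_nonneg X1) (arccos_le_pi X1)
      (arccos_nonneg d) e6 y
    unfold Phi V at key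
    rw [f1, f2, f3, f4, e5, show y + Y2 + Y1 = y + Y1 + Y2 by ring] at key
    linarith
  intro y X1 Y1 X2 Y2 k1 k2 k3 k4
  rcases le_total 0 Y1 with k5 | k5
  · exact pos y X1 Y1 X2 Y2 k1 k2 k3 k4 k5
  · have key := pos (y + Y1 + Y2) (-X1) (-Y1) (-X2) (-Y2) (by rw [neg_sq, neg_sq]; exact k1)
      (by rw [neg_sq, neg_sq]; exact k2) (by linarith) (by
        have : (-X1 + -X2) ^ 2 + (-Y1 + -Y2) ^ 2 = (X1 + X2) ^ 2 + (Y1 + Y2) ^ 2 := by ring
        rw [this]; exact k4) (by linarith)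
    have h := Qd_anti hR.odd (D s κ)
    rw [show y + Y1 + Y2 + -Y1 = y + Y2 by ring, show y + Y2 + -Y2 = y by ring,
      show y + Y1 + Y2 + -Y2 = y + Y1 by ring, h, h, h, h] at key
    have e : -X1 * -Y2 - -Y1 * -X2 = X1 * Y2 - Y1 * X2 := by ring
    rw [e] at key
    linarith

end Pool.Agent.Strip051.LC.Half
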