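import Pool.Agent.Strip051.LC.Half.Trig

/-! # The unit rhombus, all sectors -/

namespace Pool.Agent.Strip051.LC.Half

open Real Pool.Agent.StripNear

variable {s : ℝ} {P : ℝ → ℝ}

theorem ke_neg (β : ℝ) : ke (π / 3 - β) = -ke β := by
  unfold ke
  rw [show π / 3 + (π / 3 - β) = π - (π / 3 + β) by ring, cos_pi_sub, sin_pi_sub, neg_div]

theorem sn_nonneg {a : ℝ} (ha : 0 ≤ a) : 0 ≤ sn a := by
  unfold sn; positivity

theorem sn_le_one {a : ℝ} (ha1 : a ≤ 1) : sn a ≤ 1 := by
  unfold sn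
  rw [div_le_one (pos3 a)]
  nlinarith [sq_nonneg (a - 1)]

theorem us_nonneg {a : ℝ} (ha : 0 ≤ a) (ha1 : a ≤ 1) : 0 ≤ us a := by
  unfold us
  have : 0 ≤ 1 - a := sub_nonneg.2 ha1
  positivity

/-- the data of two directions in one sector -/
theorem data {β γ : ℝ} (h1 : 0 < β) (h2 : β ≤ γ) (h3 : γ < π / 3) :
    0 < al β ∧ al β ≤ al γ ∧ al γ < 1 ∧ ke β - ke γ = KK (al β) (al γ) / h0 ∧
    0 ≤ KK (al β) (al γ) := by
  have a1 := al_pos h1 (by linarith)
  have a2 := al_mono h1.le h2 h3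
  have a3 := al_lt_one (by linarith) h3
  refine ⟨a1, a2, a3, ?_, KK_nonneg a1 a2 a3⟩
  rw [ke_al h1 (by linarith), ke_al (by linarith) h3, KK_eq a1.ne' (by linarith) (by linarith)
    (by linarith), sub_div]

theorem dd_h (hP : Cell h0 s P) (y p q : ℝ) :
    dd h0 s P y p (h0 + q) = dd h0 s P y p q := by
  rw [add_comm, hP.dd_per h0_pos.ne']

/-- both directions in the first sector -/
theorem sec00 (hP : Cell h0 s P) (hsh : s ≤ h0) (hs0 : 0 ≤ s) {β γ : ℝ} (h1 : 0 < β) (h2 : β ≤ γ)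
    (h3 : γ < π / 3) (y : ℝ) :
    (ke γ - ke β) * dd h0 s P y (sin β) (sin γ) ≤
      (1 - sin (γ - β) / h0) * (h0 - s / 2) := by
  have hp := h0_pos
  obtain ⟨a1, a2, a3, a4, a5⟩ := data h1 h2 h3
  have n0 := N0_s a1 a2 a3
  have w0 : 0 ≤ ws (al β) (al γ) := le_trans (mul_nonneg (mul_nonneg a5 (sn_nonneg a1.le))
    (sub_nonneg.2 (sn_le_one a3.le))) n0
  have key := hP.N0 (L0 := h0) (L1 := 1 / 2) (k := KK (al β) (al γ) / h0)
    (w := h0 * ws (al β) (al γ)) (p := h0 * sn (al β)) (q := h0 * sn (al γ)) hp hsh (by linarith)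
    (by positivity) (by positivity) (mul_nonneg hp.le (sn_nonneg a1.le))
    (by nlinarith [sn_le_one a3.le]) (by
      have e : KK (al β) (al γ) / h0 * (h0 * sn (al β)) * (h0 - h0 * sn (al γ)) =
          h0 * (KK (al β) (al γ) * sn (al β) * (1 - sn (al γ))) := by
        field_simp
      rw [e]
      exact mul_le_mul_of_nonneg_left n0 hp.le) y
  rw [ws_al h1.le (by linarith) (by linarith) h3, sin_al h1.le (by linarith),
    sin_al (by linarith : 0 ≤ γ) h3]
  have e : h0 * ws (al β) (al γ) / h0 = ws (al β) (al γ) := by field_simp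
  rw [e, ← a4] at key
  calc _ = (ke β - ke γ) * -dd h0 s P y (h0 * sn (al β)) (h0 * sn (al γ)) := by ring
    _ ≤ _ := key
    _ = _ := by ring

/-- across the direction 60 -/
theorem sec01 (hP : Cell h0 s P) (hsh : s ≤ h0) (hs0 : 0 ≤ s) {β γ : ℝ} (h1 : 0 < β) (h2 : β ≤ γ)
    (h3 : γ < π / 3) (y : ℝ) :
    (ke β - ke γ) * dd h0 s P y (sin γ) (sin (π / 3 + β)) ≤
      (1 - sin (π / 3 + β - γ) / h0) * (h0 - s / 2) := by
  have hp := h0_pos
  obtain ⟨a1, a2, a3, a4, a5⟩ := data h1 h2 h3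
  have n0 := W0_s a1 a2 a3
  have w0 : 0 ≤ wd (al β) (al γ) := by
    unfold wd
    have : 0 ≤ al γ - al β := sub_nonneg.2 a2
    have : 0 < al γ := by linarith
    positivity
  have u0 := us_nonneg a1.le (by linarith)
  have key := hP.W0 (L0 := h0) (L1 := 1 / 2) (k := KK (al β) (al γ) / h0)
    (w := h0 * wd (al β) (al γ)) (p := h0 * us (al β)) (q := h0 * sn (al γ)) hp hs0 hsh hp.le
    (by linarith) (by positivity) (by positivity) (by positivity)
    (mul_nonneg hp.le (sn_nonneg (by linarith)))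
    (by nlinarith [sn_le_one a3.le]) (by
      have e : KK (al β) (al γ) / h0 * (h0 * us (al β)) * (h0 * sn (al γ)) *
          (h0 - h0 * sn (al γ)) =
          h0 ^ 2 * (KK (al β) (al γ) * us (al β) * sn (al γ) * (1 - sn (al γ))) := by
        field_simp
      have e' : h0 * wd (al β) (al γ) * (h0 - 1 / 2 * (h0 * sn (al γ))) =
          h0 ^ 2 * (wd (al β) (al γ) * (1 - sn (al γ) / 2)) := by ring
      rw [e, e']
      exact mul_le_mul_of_nonneg_left n0 (by positivity)) y
  have e2 : sin (π / 3 + β) = h0 + h0 * us (al β) := by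
    have := us_al h1.le (by linarith : β < π / 3)
    linarith
  rw [wd_al h1.le (by linarith) (by linarith) h3, e2, dd_h hP, sin_al (by linarith : 0 ≤ γ) h3,
    Cell.dd_comm]
  have e : h0 * wd (al β) (al γ) / h0 = wd (al β) (al γ) := by field_simp
  rw [e, ← a4] at key
  calc _ ≤ _ := key
    _ = _ := by ring

/-- both directions in the second sector -/
theorem sec11 (hP : Cell h0 s P) (hsh : s ≤ h0) (hs0 : 0 ≤ s) {β γ : ℝ} (h1 : 0 < β) (h2 : β ≤ γ)
    (h3 : γ < π / 3) (y : ℝ) :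
    (ke γ - ke β) * dd h0 s P y (sin (π / 3 + β)) (sin (π / 3 + γ)) ≤
      (1 - sin (γ - β) / h0) * (h0 - s / 2) := by
  have hp := h0_pos
  obtain ⟨a1, a2, a3, a4, a5⟩ := data h1 h2 h3
  have n0 := N1_s a1 a2 a3
  have u0 := us_nonneg a1.le (by linarith)
  have u1 := us_nonneg (by linarith : 0 ≤ al γ) a3.le
  have w0 : 0 ≤ ws (al β) (al γ) := le_trans (by positivity) n0
  have key := hP.N1 (L0 := h0) (L1 := 1 / 2) (k := KK (al β) (al γ) / h0)
    (w := h0 * ws (al β) (al γ)) (p := h0 * us (al β)) (q := h0 * us (al γ)) hp hs0 hsh hp.le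
    (by positivity) (by positivity) (by positivity) (by positivity) (by
      have e : KK (al β) (al γ) / h0 * (h0 * us (al β)) * (h0 * us (al γ)) * h0 =
          h0 ^ 2 / 2 * (2 * (KK (al β) (al γ) * us (al β) * us (al γ))) := by
        field_simp
      have e' : h0 * ws (al β) (al γ) * (h0 - 1 / 2 * h0) = h0 ^ 2 / 2 * ws (al β) (al γ) := by
        ring
      rw [e, e']
      exact mul_le_mul_of_nonneg_left n0 (by positivity)) y
  have e2 : sin (π / 3 + β) = h0 + h0 * us (al β) := by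
    have := us_al h1.le (by linarith : β < π / 3)
    linarith
  have e3 : sin (π / 3 + γ) = h0 + h0 * us (al γ) := by
    have := us_al (by linarith : 0 ≤ γ) h3
    linarith
  rw [ws_al h1.le (by linarith) (by linarith) h3, e2, e3, dd_h hP, Cell.dd_comm, dd_h hP,
    Cell.dd_comm]
  have e : h0 * ws (al β) (al γ) / h0 = ws (al β) (al γ) := by field_simp
  rw [e, ← a4] at key
  calc _ = (ke β - ke γ) * -dd h0 s P y (h0 * us (al β)) (h0 * us (al γ)) := by ring
    _ ≤ _ := key
    _ = _ := by ring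

/-- across the direction 180 -/
theorem sec23 (hP : Cell h0 s P) (hsh : s ≤ h0) (hs0 : 0 ≤ s) {α β : ℝ} (h1 : 0 < α) (h2 : 0 < β)
    (h3 : α + β ≤ π / 3) (y : ℝ) :
    (ke α + ke β) * dd h0 s P y (sin β) (-sin α) ≤
      (1 - sin (α + β) / h0) * (h0 - s / 2) := by
  have hp := h0_pos
  have hpi := Real.pi_pos
  have a1 := al_pos h1 (by linarith)
  have a2 := al_lt_one h1.le (by linarith)
  have b1 := al_pos h2 (by linarith)
  have b2 := al_lt_one h2.le (by linarith)
  have e0 : ke α + ke β = K2 (al α) (al β) / h0 := by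
    rw [ke_al h1 (by linarith), ke_al h2 (by linarith), K2_eq a1.ne' b1.ne' (by linarith)
      (by linarith), add_div]
  have w0 : 0 ≤ wp (al α) (al β) := by
    rw [← wp_al h1.le (by linarith) h2.le (by linarith)]
    have : sin (α + β) ≤ h0 := by
      rw [h0_eq_sin]
      exact sin_le_sin_of_le_of_le_pi_div_two (by linarith) (by linarith) h3
    rw [sub_nonneg, div_le_one hp]
    exact this
  set a := al α with ha
  set b := al β with hb
  have c1 : 0 < 3 - (a + b) - a * b := by nlinarith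
  have c2 : 0 ≤ 3 - 3 * (a + b) - a * b := by
    by_contra hcon
    push Not at hcon
    have : wp a b < 0 := by
      unfold wp
      apply div_neg_of_neg_of_pos (mul_neg_of_neg_of_pos hcon c1)
      positivity
    linarith
  have n0 := W2_s a1 a2 b1 b2 (by linarith)
  have c3 : 0 < a + b - 2 * (a * b) := by nlinarith
  have c4 : 0 < 4 * (a * b) * ((1 - a) * (1 - b)) := by
    have := sub_pos.2 a2
    have := sub_pos.2 b2
    positivity
  have k0 : 0 ≤ K2 a b := by
    unfold K2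
    exact div_nonneg (mul_nonneg c2 c3.le) c4.le
  rw [Cell.dd_neg, e0, wp_al h1.le (by linarith) h2.le (by linarith)]
  rcases k0.eq_or_lt with k1 | k1
  · rw [← k1]
    have : 0 ≤ wp a b * (h0 - s / 2) := mul_nonneg w0 (by linarith)
    simpa using this
  have key := hP.W2 (L0 := h0) (L1 := 1 / 2) (k := K2 a b / h0)
    (w := h0 * wp a b) (p := h0 * sn b) (q := h0 * sn a) hp hs0 hsh hp.le (by linarith)
    (by positivity) (by positivity) (mul_nonneg hp.le (sn_nonneg b1.le))
    (by nlinarith [sn_le_one b2.le]) (mul_nonneg hp.le (sn_nonneg a1.le))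
    (by nlinarith [sn_le_one a2.le]) (by
      have e : (K2 a b / h0) ^ 2 * (h0 * sn b * (h0 * sn a)) *
          ((h0 - h0 * sn b) * (h0 - h0 * sn a)) + (h0 * wp a b) ^ 2 * (1 / 2) ^ 2 =
          h0 ^ 2 / 4 * (4 * (K2 a b ^ 2 * (sn b * sn a) * ((1 - sn b) * (1 - sn a))) +
            wp a b ^ 2) := by
        field_simp
        ring
      have e' : K2 a b / h0 * (h0 * wp a b) * (h0 * h0 + h0 * (h0 * sn b + h0 * sn a - h0) *
          (1 / 2) - 2 * (h0 * sn b * (h0 * sn a)) * (1 / 2)) =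
          h0 ^ 2 / 4 * (2 * (K2 a b * wp a b * (1 + sn b + sn a - 2 * (sn b * sn a)))) := by
        field_simp
        ring
      rw [e, e']
      exact mul_le_mul_of_nonneg_left n0 (by positivity)) (y - sin α)
  have e : h0 * wp a b / h0 = wp a b := by field_simp
  rw [e] at key
  rw [sin_al h1.le (by linarith), sin_al h2.le (by linarith), ← ha, ← hb]
  rw [sin_al h1.le (by linarith), ← ha] at key
  calc _ ≤ _ := key
    _ = _ := by ring

/-- The kernel of all directions in terms of `ke`. -/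
structure Ker (K : ℝ → ℝ) : Prop where
  k0 : ∀ β, 0 < β → β < π / 3 → K β = ke β
  k1 : ∀ β, 0 < β → β < π / 3 → K (π / 3 + β) = ke β
  k2 : ∀ β, 0 < β → β < π / 3 → K (2 * (π / 3) + β) = ke β
  k3 : ∀ β, 0 < β → β < π / 3 → K (π + β) = ke β

/-- **The unit rhombus inequality** for regular directions. -/
theorem rhombus {K : ℝ → ℝ} (hK : Ker K) (hP : Cell h0 s P) (hsh : s ≤ h0) (hs0 : 0 ≤ s)
    {θ δ : ℝ} (h1 : 0 < θ) (h2 : θ < π) (h3 : 0 ≤ δ) (h4 : δ ≤ π / 3)
    (n1 : θ ≠ π / 3) (n2 : θ ≠ 2 * (π / 3)) (m1 : θ + δ ≠ π / 3) (m2 : θ + δ ≠ 2 * (π / 3))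
    (m3 : θ + δ ≠ π) (y : ℝ) :
    (K (θ + δ) - K θ) * dd h0 s P y (sin θ) (sin (θ + δ)) ≤
      (1 - sin δ / h0) * (h0 - s / 2) := by
  rcases lt_or_gt_of_ne n1 with c1 | c1
  · -- first sector
    rcases lt_or_gt_of_ne m1 with d1 | d1
    · have := sec00 hP hsh hs0 h1 (by linarith : θ ≤ θ + δ) d1 y
      rw [add_sub_cancel_left] at this
      rw [hK.k0 _ (by linarith) d1, hK.k0 _ h1 c1]
      exact this
    · obtain ⟨β, hβ⟩ : ∃ β, β = θ + δ - π / 3 := ⟨_, rfl⟩
      have e : θ + δ = π / 3 + β := by rw [hβ]; ring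
      have := sec01 hP hsh hs0 (by linarith : 0 < β) (by linarith : β ≤ θ) c1 y
      rw [show π / 3 + β - θ = δ by linarith] at this
      rw [e, hK.k1 _ (by linarith) (by linarith), hK.k0 _ h1 c1]
      exact this
  rcases lt_or_gt_of_ne n2 with c2 | c2
  · -- second sector
    obtain ⟨α, hα⟩ : ∃ α, α = θ - π / 3 := ⟨_, rfl⟩
    have e1 : θ = π / 3 + α := by rw [hα]; ring
    rcases lt_or_gt_of_ne m2 with d1 | d1
    · obtain ⟨β, hβ⟩ : ∃ β, β = θ + δ - π / 3 := ⟨_, rfl⟩
      have e : θ + δ = π / 3 + β := by rw [hβ]; ring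
      have := sec11 hP hsh hs0 (by linarith : 0 < α) (by linarith : α ≤ β) (by linarith) y
      rw [show β - α = δ by linarith] at this
      rw [e, e1, hK.k1 _ (by linarith) (by linarith), hK.k1 _ (by linarith) (by linarith)]
      exact this
    · obtain ⟨β, hβ⟩ : ∃ β, β = θ + δ - 2 * (π / 3) := ⟨_, rfl⟩
      have e : θ + δ = 2 * (π / 3) + β := by rw [hβ]; ring
      have := sec01 hP hsh hs0 (by linarith : 0 < π / 3 - α)
        (by linarith : π / 3 - α ≤ π / 3 - β) (by linarith) y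
      rw [show π / 3 + (π / 3 - α) - (π / 3 - β) = δ by linarith, ke_neg, ke_neg,
        show π / 3 + (π / 3 - α) = π - θ by linarith, sin_pi_sub,
        show sin (π / 3 - β) = sin (θ + δ) by
          rw [← sin_pi_sub (π / 3 - β)]; congr 1; linarith, Cell.dd_comm] at this
      have k1 : K θ = ke α := by rw [e1]; exact hK.k1 _ (by linarith) (by linarith)
      have k2 : K (θ + δ) = ke β := by rw [e]; exact hK.k2 _ (by linarith) (by linarith)
      rw [k1, k2]
      calc _ = (-ke α - -ke β) * dd h0 s P y (sin θ) (sin (θ + δ)) := by ring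
        _ ≤ _ := this
  · -- third sector
    obtain ⟨α, hα⟩ : ∃ α, α = θ - 2 * (π / 3) := ⟨_, rfl⟩
    have e1 : θ = 2 * (π / 3) + α := by rw [hα]; ring
    have k1 : K θ = ke α := by rw [e1]; exact hK.k2 _ (by linarith) (by linarith)
    rcases lt_or_gt_of_ne m3 with d1 | d1
    · obtain ⟨β, hβ⟩ : ∃ β, β = θ + δ - 2 * (π / 3) := ⟨_, rfl⟩
      have e : θ + δ = 2 * (π / 3) + β := by rw [hβ]; ring
      have k2 : K (θ + δ) = ke β := by rw [e]; exact hK.k2 _ (by linarith) (by linarith)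
      have := sec00 hP hsh hs0 (by linarith : 0 < π / 3 - β)
        (by linarith : π / 3 - β ≤ π / 3 - α) (by linarith) y
      rw [show π / 3 - α - (π / 3 - β) = δ by linarith, ke_neg, ke_neg,
        show sin (π / 3 - β) = sin (θ + δ) by
          rw [← sin_pi_sub (π / 3 - β)]; congr 1; linarith,
        show sin (π / 3 - α) = sin θ by
          rw [← sin_pi_sub (π / 3 - α)]; congr 1; linarith, Cell.dd_comm] at this
      rw [k1, k2]
      calc _ = (-ke α - -ke β) * dd h0 s P y (sin θ) (sin (θ + δ)) := by ring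
        _ ≤ _ := this
    · obtain ⟨β, hβ⟩ : ∃ β, β = θ + δ - π := ⟨_, rfl⟩
      have e : θ + δ = π + β := by rw [hβ]; ring
      have k2 : K (θ + δ) = ke β := by rw [e]; exact hK.k3 _ (by linarith) (by linarith)
      have := sec23 hP hsh hs0 (by linarith : 0 < β) (by linarith : 0 < π / 3 - α)
        (by linarith : β + (π / 3 - α) ≤ π / 3) y
      rw [show β + (π / 3 - α) = δ by linarith, ke_neg,
        show sin (π / 3 - α) = sin θ by
          rw [← sin_pi_sub (π / 3 - α)]; congr 1; linarith,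
        show -sin β = sin (θ + δ) by rw [e, add_comm, sin_add_pi]] at this
      rw [k1, k2]
      calc _ = (ke β + -ke α) * dd h0 s P y (sin θ) (sin (θ + δ)) := by ring
        _ ≤ _ := this

end Pool.Agent.Strip051.LC.Half
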