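import Pool.Agent.Strip051.LC.Half.Elim
import Pool.Agent.Strip051.LC.Half.Poly
import Pool.Agent.StripNear.PointRealB

/-! # The unit rhombus in one sector or across one pole

`ke β = cos (60 + β) / (sin (60 + β) - sin 60)` is the kernel for the direction `β` modulo 60
degrees. -/

namespace Pool.Agent.Strip051.LC.Half

open Real Pool.Agent.StripNear

/-- the kernel on the unit circle, `0 < β < π / 3` -/
noncomputable def ke (β : ℝ) : ℝ := cos (π / 3 + β) / (sin (π / 3 + β) - h0)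

/-- `√3 tan (β / 2)` -/
noncomputable def al (β : ℝ) : ℝ := 2 * h0 * tan (β / 2)

/-- the kernel as a rational function -/
noncomputable def kk (a : ℝ) : ℝ := (3 - 6 * a - a ^ 2) / (4 * a * (1 - a))

theorem cos_pi3 : cos (π / 3) = 1 / 2 := Real.cos_pi_div_three

theorem sin_pi3 : sin (π / 3) = h0 := h0_eq_sin.symm

theorem al_pos {β : ℝ} (h0' : 0 < β) (h1 : β < π / 3) : 0 < al β := by
  have hp := Real.pi_pos
  exact mul_pos (mul_pos two_pos h0_pos) (tan_pos_of_pos_of_lt_pi_div_two (by linarith)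
    (by linarith))

theorem al_nonneg {β : ℝ} (h0' : 0 ≤ β) (h1 : β < π / 3) : 0 ≤ al β := by
  rcases h0'.eq_or_lt with h | h
  · rw [← h]; unfold al; simp
  · exact (al_pos h h1).le

theorem al_mono {β γ : ℝ} (h0' : 0 ≤ β) (h1 : β ≤ γ) (h2 : γ < π / 3) : al β ≤ al γ := by
  have hp := Real.pi_pos
  unfold al
  apply mul_le_mul_of_nonneg_left _ (mul_pos two_pos h0_pos).le
  rcases h1.eq_or_lt with h | h
  · rw [h]
  · exact (tan_lt_tan_of_lt_of_lt_pi_div_two (by linarith) (by linarith) (by linarith)).le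

theorem al_lt_one {β : ℝ} (h0' : 0 ≤ β) (h1 : β < π / 3) : al β < 1 := by
  have hp := Real.pi_pos
  have h2 : tan (β / 2) < tan (π / 6) :=
    tan_lt_tan_of_lt_of_lt_pi_div_two (by linarith) (by linarith) (by linarith)
  rw [tan_pi_div_six] at h2
  have h3 : 0 < Real.sqrt 3 := Real.sqrt_pos.2 (by norm_num)
  unfold al h0
  rw [lt_div_iff₀ h3] at h2
  linarith

/-- the half angle formulas -/
theorem half_T {β : ℝ} (h : cos (β / 2) ≠ 0) :
    sin β = 2 * tan (β / 2) / (1 + tan (β / 2) ^ 2) ∧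
    cos β = (1 - tan (β / 2) ^ 2) / (1 + tan (β / 2) ^ 2) := by
  have e1 : sin β = 2 * sin (β / 2) * cos (β / 2) := by
    rw [← sin_two_mul]; congr 1; ring
  have e2 : cos β = cos (β / 2) ^ 2 - sin (β / 2) ^ 2 := by
    rw [← cos_two_mul']; congr 1; ring
  have e3 := sin_sq_add_cos_sq (β / 2)
  rw [e1, e2, tan_eq_sin_div_cos]
  have e4 : 1 + (sin (β / 2) / cos (β / 2)) ^ 2 = 1 / cos (β / 2) ^ 2 := by
    field_simp
    linarith
  rw [e4]
  constructor <;> field_simp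

theorem cos_half_pos {β : ℝ} (h0' : 0 ≤ β) (h1 : β < π / 3) : 0 < cos (β / 2) :=
  cos_pos_of_mem_Ioo ⟨by linarith [Real.pi_pos], by linarith [Real.pi_pos]⟩

theorem sin_al {β : ℝ} (h0' : 0 ≤ β) (h1 : β < π / 3) : sin β = h0 * sn (al β) := by
  have h := (half_T (cos_half_pos h0' h1).ne').1
  rw [h]
  unfold sn al
  set T := tan (β / 2)
  have hs := h0_sq
  have e : 3 + (2 * h0 * T) ^ 2 = 3 * (1 + T ^ 2) := by
    rw [mul_pow, mul_pow, hs]; ring
  have e' : 0 < 1 + T ^ 2 := by positivity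
  rw [e]
  field_simp
  linear_combination (-4) * T * hs

theorem cos_al {β : ℝ} (h0' : 0 ≤ β) (h1 : β < π / 3) :
    cos β = (3 - al β ^ 2) / (3 + al β ^ 2) := by
  have h := (half_T (cos_half_pos h0' h1).ne').2
  rw [h]
  unfold al
  set T := tan (β / 2)
  have hs := h0_sq
  have e : (2 * h0 * T) ^ 2 = 3 * T ^ 2 := by
    rw [mul_pow, mul_pow, hs]; ring
  have e' : 0 < 1 + T ^ 2 := by positivity
  rw [e]
  have e2 : (3 : ℝ) + 3 * T ^ 2 ≠ 0 := by positivity
  field_simp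

theorem us_al {β : ℝ} (h0' : 0 ≤ β) (h1 : β < π / 3) :
    sin (π / 3 + β) - h0 = h0 * us (al β) := by
  rw [sin_add, sin_pi3, cos_pi3, sin_al h0' h1, cos_al h0' h1]
  unfold us sn
  have e := pos3 (al β)
  field_simp
  ring

theorem ke_al {β : ℝ} (h0' : 0 < β) (h1 : β < π / 3) : ke β = kk (al β) / h0 := by
  unfold ke
  rw [us_al h0'.le h1, cos_add, sin_pi3, cos_pi3, sin_al h0'.le h1, cos_al h0'.le h1]
  unfold kk us sn
  have e := pos3 (al β)
  have e1 := al_pos h0' h1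
  have e2 := al_lt_one h0'.le h1
  have e3 : 1 - al β ≠ 0 := by linarith
  have hs := h0_sq
  have hp := h0_pos
  field_simp
  linear_combination (-32) * al β * hs

theorem KK_eq {a b : ℝ} (ha : a ≠ 0) (hb : b ≠ 0) (ha1 : 1 - a ≠ 0) (hb1 : 1 - b ≠ 0) :
    KK a b = kk a - kk b := by
  unfold KK kk
  field_simp
  ring

theorem K2_eq {a b : ℝ} (ha : a ≠ 0) (hb : b ≠ 0) (ha1 : 1 - a ≠ 0) (hb1 : 1 - b ≠ 0) :
    K2 a b = kk a + kk b := by
  unfold K2 kk
  field_simp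
  ring

theorem ws_al {β γ : ℝ} (h0' : 0 ≤ β) (h1 : β < π / 3) (h2 : 0 ≤ γ) (h3 : γ < π / 3) :
    1 - sin (γ - β) / h0 = ws (al β) (al γ) := by
  rw [sin_sub, sin_al h0' h1, cos_al h0' h1, sin_al h2 h3, cos_al h2 h3]
  unfold ws sn
  have e := pos3 (al β)
  have e1 := pos3 (al γ)
  have hp := h0_pos
  field_simp
  ring

theorem wp_al {β γ : ℝ} (h0' : 0 ≤ β) (h1 : β < π / 3) (h2 : 0 ≤ γ) (h3 : γ < π / 3) :
    1 - sin (β + γ) / h0 = wp (al β) (al γ) := by
  rw [sin_add, sin_al h0' h1, cos_al h0' h1, sin_al h2 h3, cos_al h2 h3]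
  unfold wp sn
  have e := pos3 (al β)
  have e1 := pos3 (al γ)
  have hp := h0_pos
  field_simp
  ring

theorem wd_al {β γ : ℝ} (h0' : 0 ≤ β) (h1 : β < π / 3) (h2 : 0 ≤ γ) (h3 : γ < π / 3) :
    1 - sin (π / 3 + β - γ) / h0 = wd (al β) (al γ) := by
  rw [show π / 3 + β - γ = π / 3 - (γ - β) by ring, sin_sub, sin_pi3, cos_pi3, sin_sub γ, cos_sub γ,
    sin_al h0' h1, cos_al h0' h1, sin_al h2 h3, cos_al h2 h3]
  unfold wd sn
  have e := pos3 (al β)
  have e1 := pos3 (al γ)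
  have hp := h0_pos
  have hs := h0_sq
  field_simp
  ring_nf
  have e3 : h0 ^ 2 = 3 / 4 := hs
  simp only [e3]
  ring

end Pool.Agent.Strip051.LC.Half
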