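import Pool.Agent.Strip051.LC.Half.Sector
import Pool.Agent.Strip051.LC.Line.Flux
import Pool.Agent.Strip051.LC.Apex

/-! # The flux of a unit edge -/

namespace Pool.Agent.Strip051.LC.Half

open Real MeasureTheory intervalIntegral Pool.Agent.StripNear Pool.Agent.Strip051.LC.Line

/-- The values of the kernel (times the pole factor) on the unit circle, up to the factor `c`. -/
structure UnitKer (R : ℝ → ℝ → ℝ) (c : ℝ) : Prop where
  odd : ∀ X T, R (-X) T = -R X T
  low : ∀ X T, 0 < X → 0 ≤ T → X ^ 2 + T ^ 2 = 1 → T < h0 / 2 →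
    R X T = c * ((X - 2 * h0 * T) * (1 + X) / (1 + X - 2 * h0 * T))
  mid : ∀ X T, 0 < X → X ^ 2 + T ^ 2 = 1 → h0 / 2 ≤ T → T ≤ h0 →
    R X T = c * ((1 + 2 * X) * (2 * h0 * T - X) / (2 * (1 + 2 * h0 * T - X)))
  high : ∀ X T, 0 < X → X ^ 2 + T ^ 2 = 1 → h0 ≤ T → R X T = c * X

variable {R : ℝ → ℝ → ℝ} {c s κ : ℝ}

/-- The kernel of a direction between `0` and `4 π / 3`. -/
noncomputable def KD (θ : ℝ) : ℝ :=
  if θ < π / 3 then ke θ else if θ < 2 * (π / 3) then ke (θ - π / 3) else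
    if θ < π then ke (θ - 2 * (π / 3)) else ke (θ - π)

theorem KD_ker : Ker KD := by
  have hp := Real.pi_pos
  refine ⟨?_, ?_, ?_, ?_⟩
  · intro β h1 h2
    unfold KD
    rw [if_pos h2]
  · intro β h1 h2
    unfold KD
    rw [if_neg (by linarith), if_pos (by linarith), add_sub_cancel_left]
  · intro β h1 h2
    unfold KD
    rw [if_neg (by linarith), if_neg (by linarith), if_pos (by linarith), add_sub_cancel_left]
  · intro β h1 h2
    unfold KD
    rw [if_neg (by linarith), if_neg (by linarith), if_neg (by linarith), add_sub_cancel_left]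

/-- The flux of the unit edge with the direction `θ`. -/
noncomputable def V (R : ℝ → ℝ → ℝ) (s κ θ y : ℝ) : ℝ :=
  Qd R (D s κ) (cos θ) y (y + sin θ)

theorem sin_lt_h0 {θ : ℝ} (h1 : 0 ≤ θ) (h2 : θ < π / 3) : sin θ < h0 := by
  have hp := Real.pi_pos
  rw [h0_eq_sin]
  exact sin_lt_sin_of_lt_of_le_pi_div_two (by linarith) (by linarith) h2

theorem half_lt_cos {θ : ℝ} (h1 : 0 ≤ θ) (h2 : θ < π / 3) : 1 / 2 < cos θ := by
  have hp := Real.pi_pos
  rw [← Real.cos_pi_div_three]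
  exact cos_lt_cos_of_nonneg_of_le_pi_div_two h1 (by linarith) h2

/-- the kernel in terms of the coordinates -/
theorem ke_eq (β : ℝ) :
    ke β = (cos β / 2 - h0 * sin β) / (sin β / 2 + h0 * cos β - h0) := by
  unfold ke
  rw [cos_add, sin_add, sin_pi3, cos_pi3]
  congr 1 <;> ring

theorem den_pos {X T : ℝ} (hX : 1 / 2 < X) (h : X ^ 2 + T ^ 2 = 1) (hT' : T < h0) :
    0 < 1 + X - 2 * h0 * T := by
  have h3 := h0_sq
  have hp := h0_pos
  nlinarith

theorem den_ne {X T : ℝ} (hX : 1 / 2 < X) (hT : 0 < T) (h : X ^ 2 + T ^ 2 = 1) (hT' : T < h0) :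
    0 < T / 2 + h0 * X - h0 := by
  have h3 := h0_sq
  have hp := h0_pos
  have h4 := den_pos hX h hT'
  have h5 : (1 + X) * (T / 2 + h0 * X - h0) = T / 2 * (1 + X - 2 * h0 * T) := by
    linear_combination h0 * h
  have h6 : 0 < (1 + X) * (T / 2 + h0 * X - h0) := by rw [h5]; positivity
  exact pos_of_mul_pos_right h6 (by linarith)

theorem low_eq {X T : ℝ} (hX : 1 / 2 < X) (hT : 0 < T) (h : X ^ 2 + T ^ 2 = 1) (hT' : T < h0) :
    (X - 2 * h0 * T) * (1 + X) / (1 + X - 2 * h0 * T) =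
      (X / 2 - h0 * T) / (T / 2 + h0 * X - h0) * T := by
  have h4 := den_pos hX h hT'
  have h5 := den_ne hX hT h hT'
  rw [div_mul_eq_mul_div, div_eq_div_iff h4.ne' h5.ne']
  linear_combination (X - 2 * h0 * T) * h0 * h

theorem mid_eq {X T : ℝ} (hX : 1 / 2 < X) (hT : 0 < T) (h : X ^ 2 + T ^ 2 = 1) (hT' : T < h0) :
    (1 + 2 * X) * (2 * h0 * T - X) / (2 * (1 + 2 * h0 * T - X)) =
      (X / 2 - h0 * T) / (T / 2 + h0 * X - h0) * (T - h0) := by
  have h3 := h0_sq
  have hp := h0_pos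
  have h6 : X ≤ 1 := by nlinarith [mul_pos hT hT]
  have h7 := mul_pos hp hT
  have h4 : 0 < 1 + 2 * h0 * T - X := by linarith
  have h5 := den_ne hX hT h hT'
  rw [div_mul_eq_mul_div, div_eq_div_iff (by positivity) h5.ne']
  linear_combination (2 * h0 * T - X) * (2 * h0 * h - T * h3 * 2)

/-- the integral over a period -/
theorem int_per (hs0 : 0 ≤ s) (hs1 : s < h0) (a b : ℝ) :
    ∫ x in a..(b - h0), D s κ x = ∫ x in a..b, D s κ x := by
  have hI : ∀ x y : ℝ, IntervalIntegrable (D s κ) volume x y :=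
    fun x y => D_integrable κ hs0 x y
  have h1 := intervalIntegral.integral_add_adjacent_intervals (hI a (b - h0)) (hI (b - h0) b)
  have h2 := D_integral κ hs0 hs1 (b - h0)
  rw [sub_add_cancel] at h2
  linarith

theorem mn_T (a T : ℝ) : T * mn (D s κ) a (a + T) = ∫ x in a..(a + T), D s κ x := by
  have := mul_mn (D s κ) a (a + T)
  rwa [add_sub_cancel_left] at this

theorem mn_Th (hs0 : 0 ≤ s) (hs1 : s < h0) (a T : ℝ) :
    (T - h0) * mn (D s κ) a (a + T - h0) = ∫ x in a..(a + T), D s κ x := by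
  have := mul_mn (D s κ) a (a + T - h0)
  rw [int_per hs0 hs1] at this
  rw [← this]
  ring

theorem V_first (hR : UnitKer R c) (hs0 : 0 ≤ s) (hs1 : s < h0) {θ : ℝ} (h1 : 0 < θ)
    (h2 : θ < π / 3) (y : ℝ) :
    V R s κ θ y = c * ke θ * ∫ x in y..(y + sin θ), D s κ x := by
  have hp := Real.pi_pos
  have c1 := half_lt_cos h1.le h2
  have c2 : 0 < sin θ := sin_pos_of_pos_of_lt_pi h1 (by linarith)
  have c3 := sin_lt_h0 h1.le h2
  have c4 : cos θ ^ 2 + sin θ ^ 2 = 1 := by rw [add_comm]; exact sin_sq_add_cos_sq θ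
  unfold V Qd
  rw [add_sub_cancel_left, abs_of_pos c2, min_eq_left (by linarith), max_eq_right (by linarith),
    ke_eq]
  unfold jn
  rcases lt_or_ge (sin θ) (h0 / 2) with c5 | c5
  · rw [if_pos c5, hR.low _ _ (by linarith) c2.le c4 c5, low_eq c1 c2 c4 c3]
    rw [← mn_T]
    push_cast
    ring_nf
  · rw [if_neg c5.not_gt, if_pos (by linarith [h0_pos]), hR.mid _ _ (by linarith) c4 c5 c3.le,
      mid_eq c1 c2 c4 c3, ← mn_Th hs0 hs1]
    push_cast
    ring_nf

theorem V_second (hR : UnitKer R c) (hs0 : 0 ≤ s) (hs1 : s < h0) {θ : ℝ} (h1 : π / 3 < θ)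
    (h2 : θ < 2 * (π / 3)) (y : ℝ) :
    V R s κ θ y = c * ke (θ - π / 3) * ∫ x in y..(y + sin θ), D s κ x := by
  have hp := Real.pi_pos
  have c4 : cos θ ^ 2 + sin θ ^ 2 = 1 := by rw [add_comm]; exact sin_sq_add_cos_sq θ
  have c3 : h0 < sin θ := by
    rw [h0_eq_sin]
    rcases le_total θ (π / 2) with h | h
    · exact sin_lt_sin_of_lt_of_le_pi_div_two (by linarith) h h1
    · rw [← sin_pi_sub θ]
      exact sin_lt_sin_of_lt_of_le_pi_div_two (by linarith) (by linarith) (by linarith)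
  have c2 : 0 < sin θ := h0_pos.trans c3
  have c6 := sin_le_one θ
  have c7 := h0_gt
  have hRX : R (cos θ) (sin θ) = c * cos θ := by
    rcases lt_trichotomy (cos θ) 0 with h | h | h
    · have := hR.high (-cos θ) (sin θ) (by linarith) (by rw [neg_sq]; exact c4) c3.le
      rw [hR.odd] at this
      linarith
    · have := hR.odd 0 (sin θ)
      rw [neg_zero] at this
      rw [h]
      linarith
    · exact hR.high _ _ h c4 c3.le
  unfold V Qd
  rw [add_sub_cancel_left, abs_of_pos c2, min_eq_left (by linarith), max_eq_right (by linarith)]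
  unfold jn ke
  rw [if_neg (by linarith), if_pos (by linarith), hRX, show π / 3 + (θ - π / 3) = θ by ring,
    ← mn_Th hs0 hs1]
  have c8 : sin θ - h0 ≠ 0 := by linarith
  push_cast
  rw [one_mul]
  field_simp

theorem V_third (hR : UnitKer R c) (hs0 : 0 ≤ s) (hs1 : s < h0) {θ : ℝ} (h1 : 2 * (π / 3) < θ)
    (h2 : θ < π) (y : ℝ) :
    V R s κ θ y = c * ke (θ - 2 * (π / 3)) * ∫ x in y..(y + sin θ), D s κ x := by
  have key := V_first (κ := κ) hR hs0 hs1 (by linarith : 0 < π - θ) (by linarith : π - θ < π / 3) y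
  unfold V at key ⊢
  rw [cos_pi_sub, Qd_odd hR.odd, sin_pi_sub, show π - θ = π / 3 - (θ - 2 * (π / 3)) by ring,
    ke_neg] at key
  linarith

theorem V_fourth (hR : UnitKer R c) (hs0 : 0 ≤ s) (hs1 : s < h0) {θ : ℝ} (h1 : π < θ)
    (h2 : θ < π + π / 3) (y : ℝ) :
    V R s κ θ y = c * ke (θ - π) * ∫ x in y..(y + sin θ), D s κ x := by
  have key := V_first (κ := κ) hR hs0 hs1 (by linarith : 0 < θ - π) (by linarith : θ - π < π / 3)
    (y + sin θ)
  unfold V at key ⊢
  rw [cos_sub_pi, Qd_odd hR.odd, sin_sub_pi, add_neg_cancel_right, Qd_comm,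
    intervalIntegral.integral_symm] at key
  linarith

theorem V_reg (hR : UnitKer R c) (hs0 : 0 ≤ s) (hs1 : s < h0) {θ : ℝ} (h1 : 0 < θ)
    (h2 : θ < π + π / 3) (n1 : θ ≠ π / 3) (n2 : θ ≠ 2 * (π / 3)) (n3 : θ ≠ π) (y : ℝ) :
    V R s κ θ y = c * KD θ * ∫ x in y..(y + sin θ), D s κ x := by
  have hp := Real.pi_pos
  unfold KD
  split_ifs with a1 a2 a3
  · exact V_first hR hs0 hs1 h1 a1 y
  · exact V_second hR hs0 hs1 (lt_of_le_of_ne (not_lt.1 a1) (Ne.symm n1)) a2 y
  · exact V_third hR hs0 hs1 (lt_of_le_of_ne (not_lt.1 a2) (Ne.symm n2)) a3 y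
  · exact V_fourth hR hs0 hs1 (lt_of_le_of_ne (not_lt.1 a3) (Ne.symm n3)) h2 y

theorem cell (hs0 : 0 ≤ s) (hs1 : s < h0) : Cell h0 s (Pp h0 s) :=
  ⟨Pp_monotone h0_pos hs0, Pp_lip h0_pos hs1.le, Pp_add h0_pos s⟩

/-- The second difference of the primitive of the density. -/
theorem second_diff (hs0 : 0 ≤ s) (hs1 : s < h0) (y p q : ℝ) :
    (∫ x in (y + q)..(y + q + p), D s κ x) - ∫ x in y..(y + p), D s κ x =
      κ * dd h0 s (Pp h0 s) y p q := by
  have hP := cell hs0 hs1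
  have e : ∀ a b : ℝ, ∫ x in a..b, D s κ x = κ * (prim (Pp h0 s) b - prim (Pp h0 s) a -
      s / h0 * ((b ^ 2 - a ^ 2) / 2) - s * (h0 - s) / (2 * h0) * (b - a)) := by
    intro a b
    have e1 : (fun x => D s κ x) =
        fun x => κ * (Pp h0 s x - s / h0 * x - s * (h0 - s) / (2 * h0)) := rfl
    have i1 : IntervalIntegrable (fun x : ℝ => s / h0 * x) volume a b :=
      Continuous.intervalIntegrable (by fun_prop) _ _
    rw [e1, intervalIntegral.integral_const_mul, intervalIntegral.integral_sub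
      ((hP.int _ _).sub i1) intervalIntegrable_const, intervalIntegral.integral_sub (hP.int _ _) i1,
      intervalIntegral.integral_const_mul, integral_id, intervalIntegral.integral_const,
      smul_eq_mul, hP.prim_sub]
    ring
  rw [e, e]
  unfold dd sd
  rw [show y + q + p = y + p + q by ring]
  ring

end Pool.Agent.Strip051.LC.Half
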